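import Pool.Agent.TVR.G.Defs

/-!
# TVR part G, module Cls: counting the merging steps

`cls`: `cls R X` is the number of classes of `R` in `X`.  Put `f s = X.filter fun y => ∃ x ∈ s, R' x y`; for `x ∈ X`:
`f (X.filter (R x)) = X.filter (R' x)` (reflexivity, transitivity, `R ≤ R'`), so the set of the classes of
`R'` is the image under `f` of the set of the classes of `R`: `cls_le` (`Finset.card_image_le`).
`cls_lt`: if the numbers were equal, `f` would be injective on the classes (`Finset.card_image_iff`), but
`f (class of a) = f (class of b)` as `R' a b` (symmetry), and `b` is in the class of `b` but not in that of `a`.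
`count_le`: let `J` be a finite set, `Φ S` (`S ⊆ J`) relations, increasing in `S`, and suppose that for the `j` in
`T`, for all `S` with `j ∉ S` the step from `S` to `insert j S` merges two classes.  Induction on `S`:
`#(T ∩ S) + cls (Φ S) X ≤ cls (Φ ∅) X`, and `cls (Φ ∅) X ≤ X.card`.
`card_bd`: `card_box` for `n` and `n - 1`, `(2 n + 1)² - (2 n - 1)² = 8 n`.
-/

open scoped ENNReal NNReal
open MeasureTheory Set

noncomputable section

namespace Pool.Agent.TVR.G

open RC Pool.Agent.Helper3.Anderson Pool.Agent.Helper3.Crit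

variable {α β : Type*}

open Classical in
/-- the number of classes of `R` in `X` -/
def cls (R : α → α → Prop) (X : Finset α) : ℕ := (X.image fun x => X.filter (R x)).card

open Classical in
private def up (R' : α → α → Prop) (X s : Finset α) : Finset α := X.filter fun y => ∃ x ∈ s, R' x y

open Classical in
private theorem up_class {R R' : α → α → Prop} (hR : Equivalence R) (hR' : Equivalence R')
    (h : ∀ x y, R x y → R' x y) {X : Finset α} {x : α} (hx : x ∈ X) :
    up R' X (X.filter (R x)) = X.filter (R' x) := by
  ext y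
  unfold up
  rw [Finset.mem_filter, Finset.mem_filter]
  constructor
  · rintro ⟨hy, z, hz, hzy⟩
    exact ⟨hy, hR'.trans (h _ _ (Finset.mem_filter.1 hz).2) hzy⟩
  · rintro ⟨hy, hxy⟩
    exact ⟨hy, x, Finset.mem_filter.2 ⟨hx, hR.refl x⟩, hxy⟩

open Classical in
private theorem image_up {R R' : α → α → Prop} (hR : Equivalence R) (hR' : Equivalence R')
    (h : ∀ x y, R x y → R' x y) (X : Finset α) :
    (X.image fun x => X.filter (R' x)) = (X.image fun x => X.filter (R x)).image (up R' X) := by
  rw [Finset.image_image]
  exact Finset.image_congr fun x hx => (up_class hR hR' h (Finset.mem_coe.1 hx)).symm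

theorem cls_le_card (R : α → α → Prop) (X : Finset α) : cls R X ≤ X.card := by
  classical
  exact Finset.card_image_le

theorem cls_le {R R' : α → α → Prop} (hR : Equivalence R) (hR' : Equivalence R')
    (h : ∀ x y, R x y → R' x y) (X : Finset α) : cls R' X ≤ cls R X := by
  classical
  unfold cls
  rw [image_up hR hR' h X]
  exact Finset.card_image_le

theorem cls_lt {R R' : α → α → Prop} (hR : Equivalence R) (hR' : Equivalence R')
    (h : ∀ x y, R x y → R' x y) {X : Finset α} {a b : α} (ha : a ∈ X) (hb : b ∈ X)
    (hab : ¬ R a b) (hab' : R' a b) : cls R' X < cls R X := by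
  classical
  refine lt_of_le_of_ne (cls_le hR hR' h X) fun he => ?_
  unfold cls at he
  rw [image_up hR hR' h X] at he
  have hinj := Finset.card_image_iff.1 he
  have e : X.filter (R a) = X.filter (R b) := by
    refine hinj (Finset.mem_coe.2 (Finset.mem_image_of_mem _ ha))
      (Finset.mem_coe.2 (Finset.mem_image_of_mem _ hb)) ?_
    change up R' X (X.filter (R a)) = up R' X (X.filter (R b))
    rw [up_class hR hR' h ha, up_class hR hR' h hb]
    ext y
    rw [Finset.mem_filter, Finset.mem_filter]
    constructor
    · rintro ⟨hy, hay⟩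
      exact ⟨hy, hR'.trans (hR'.symm hab') hay⟩
    · rintro ⟨hy, hby⟩
      exact ⟨hy, hR'.trans hab' hby⟩
  have hb' : b ∈ X.filter (R b) := Finset.mem_filter.2 ⟨hb, hR.refl b⟩
  rw [← e] at hb'
  exact hab (Finset.mem_filter.1 hb').2

theorem count_le [DecidableEq β] {Φ : Finset β → α → α → Prop} (hΦ : ∀ S, Equivalence (Φ S))
    (hmono : ∀ S S', S ⊆ S' → ∀ x y, Φ S x y → Φ S' x y) {X : Finset α} (T : Finset β)
    (hT : ∀ j ∈ T, ∀ S : Finset β, j ∉ S → ∃ a ∈ X, ∃ b ∈ X, ¬ Φ S a b ∧ Φ (insert j S) a b) :
    T.card ≤ X.card := by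
  classical
  have key : ∀ S : Finset β, (T.filter (· ∈ S)).card + cls (Φ S) X ≤ cls (Φ ∅) X := by
    intro S
    induction S using Finset.induction_on with
    | empty => simp
    | insert j S hj ih =>
      have hm : ∀ x y, Φ S x y → Φ (insert j S) x y := hmono S _ (Finset.subset_insert j S)
      by_cases hjT : j ∈ T
      · obtain ⟨a, ha, b, hb, h1, h2⟩ := hT j hjT S hj
        have h3 := cls_lt (hΦ S) (hΦ (insert j S)) hm ha hb h1 h2
        have h4 : T.filter (· ∈ insert j S) = insert j (T.filter (· ∈ S)) := by
          ext i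
          simp only [Finset.mem_filter, Finset.mem_insert]
          constructor
          · rintro ⟨hi, rfl | hi'⟩
            · exact Or.inl rfl
            · exact Or.inr ⟨hi, hi'⟩
          · rintro (rfl | ⟨hi, hi'⟩)
            · exact ⟨hjT, Or.inl rfl⟩
            · exact ⟨hi, Or.inr hi'⟩
        have h5 : j ∉ T.filter (· ∈ S) := fun h => hj (Finset.mem_filter.1 h).2
        rw [h4, Finset.card_insert_of_notMem h5]
        omega
      · have h3 := cls_le (hΦ S) (hΦ (insert j S)) hm X
        have h4 : T.filter (· ∈ insert j S) = T.filter (· ∈ S) := by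
          ext i
          simp only [Finset.mem_filter, Finset.mem_insert]
          constructor
          · rintro ⟨hi, rfl | hi'⟩
            · exact absurd hi hjT
            · exact ⟨hi, hi'⟩
          · rintro ⟨hi, hi'⟩
            exact ⟨hi, Or.inr hi'⟩
        rw [h4]
        omega
  have h1 := key T
  have h2 : T.filter (· ∈ T) = T := Finset.filter_true_of_mem fun i hi => hi
  rw [h2] at h1
  have h3 := cls_le_card (Φ ∅) X
  omega

theorem mem_bd {n : ℕ} (hn : 1 ≤ n) {v : Site 2} : v ∈ bd n ↔ sn v = n := by
  unfold bd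
  rw [Finset.mem_sdiff, mem_box, mem_box, sub_zero]
  omega

theorem card_bd {n : ℕ} (hn : 1 ≤ n) : (bd n).card = 8 * n := by
  unfold bd
  rw [Finset.card_sdiff_of_subset (box_mono 0 (Nat.sub_le n 1)), card_box, card_box]
  obtain ⟨m, rfl⟩ : ∃ m, n = m + 1 := ⟨n - 1, by omega⟩
  simp only [Nat.add_sub_cancel]
  have e : (2 * (m + 1) + 1) ^ 2 = (2 * m + 1) ^ 2 + 8 * (m + 1) := by ring
  omega

end Pool.Agent.TVR.G
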