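import Pool.Agent.TVR.G.Defs

/-!
# TVR part G, module Ext: leaving a box, last exit from a block

`conn_exit`: induction on the path from `a` with the last step (compare `RC.exists_dist_eq`): either `b` is
in the box and `Conn (σ ∩ bE c N) a b`, or there is `w` as claimed.  If `b` is in the box and the next
vertex `b'` is not then `sn (b - c) = N` (`sn (b' - c) ≤ sn (b - c) + 1`, see `RC.CMeas`) and `w = b`.
`conn_off`: induction with the last step: there is `a' ∈ V` with `Conn (σ \ F) a' b`: a step along an edge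
of `F` leads to a vertex of `V`.
`arm_far`: `arm σ (c + s e_i) m N i s` (`s = ± 1`) gives a path in `box (c + s e_i) N`, hence in the strip
`|v (i+1) - c (i+1)| ≤ N`, from `a ∈ box (c + s e_i) m ⊆ box c (m + 1) ⊆ V` to `b` with
`b i = c i + s + s N`.  Then `conn_off` (for `σ ∩ inE (strip (i + 1) c N)`).
`arm_of_infinite`: an infinite cluster at `a ∈ box c m` has a vertex outside of `box c N`; use
`conn_exit`: `w ∈ box c N`, `sn (w - c) = N`, so some coordinate of `w - c` is `± N` (`i = 0` or `1`).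
-/

open scoped ENNReal NNReal
open MeasureTheory Set

noncomputable section

namespace Pool.Agent.TVR.G

open RC Pool.Agent.Helper3.Anderson Pool.Agent.Helper3.Crit

private theorem sn_adj_le' {σ : Set (Edge 2)} {u v x : Site 2} (h : Adj σ u v) :
    sn (v - x) ≤ sn (u - x) + 1 := by
  obtain ⟨e, _, h' | h'⟩ := h
  · have : v - x = (u - x) + Pi.single e.2 1 := by
      rw [← h'.1, ← h'.2, src, tgt]
      abel
    rw [this]
    refine (sn_add_le _ _).trans ?_
    rw [sn_single]
  · have : v - x = (u - x) - Pi.single e.2 1 := by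
      rw [← h'.1, ← h'.2, src, tgt]
      abel
    rw [this]
    refine (sn_sub_le _ _).trans ?_
    rw [sn_single]

theorem conn_exit {σ : Set (Edge 2)} {a b c : Site 2} {N : ℕ} (h : Conn σ a b)
    (ha : a ∈ box c N) (hb : b ∉ box c N) :
    ∃ w ∈ box c N, sn (w - c) = N ∧ Conn (σ ∩ bE c N) a w := by
  have key : (b ∈ box c N ∧ Conn (σ ∩ bE c N) a b) ∨
      ∃ w ∈ box c N, sn (w - c) = N ∧ Conn (σ ∩ bE c N) a w := by
    clear hb
    unfold Conn at h
    induction h with
    | refl => exact Or.inl ⟨ha, Relation.ReflTransGen.refl⟩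
    | @tail u v _ huv ih =>
      rcases ih with ⟨hu, hcu⟩ | hw
      · by_cases hv : v ∈ box c N
        · refine Or.inl ⟨hv, ?_⟩
          obtain ⟨e, he, h'⟩ := huv
          refine Relation.ReflTransGen.tail hcu ⟨e, ⟨he, ?_⟩, h'⟩
          change e ∈ In (box c N)
          rw [mem_In]
          rcases h' with h' | h'
          · rw [h'.1, h'.2]
            exact ⟨hu, hv⟩
          · rw [h'.1, h'.2]
            exact ⟨hv, hu⟩
        · have h1 := sn_adj_le' (x := c) huv
          have h2 := mem_box.1 hu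
          have h3 : ¬ sn (v - c) ≤ N := fun h => hv (mem_box.2 h)
          exact Or.inr ⟨u, hu, by omega, hcu⟩
      · exact Or.inr hw
  rcases key with ⟨h1, _⟩ | h1
  · exact absurd h1 hb
  · exact h1

theorem conn_off {σ F : Set (Edge 2)} {V : Set (Site 2)} (hF : ∀ e ∈ F, src e ∈ V ∧ tgt e ∈ V)
    {a b : Site 2} (ha : a ∈ V) (h : Conn σ a b) : ∃ a' ∈ V, Conn (σ \ F) a' b := by
  unfold Conn at h
  induction h with
  | refl => exact ⟨a, ha, Relation.ReflTransGen.refl⟩
  | @tail u v _ huv ih =>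
    obtain ⟨e, he, h'⟩ := huv
    by_cases hf : e ∈ F
    · refine ⟨v, ?_, Relation.ReflTransGen.refl⟩
      rcases h' with h' | h'
      · rw [← h'.2]
        exact (hF e hf).2
      · rw [← h'.1]
        exact (hF e hf).1
    · obtain ⟨a', ha', h1⟩ := ih
      exact ⟨a', ha', Relation.ReflTransGen.tail h1 ⟨e, ⟨he, hf⟩, h'⟩⟩

theorem arm_far {σ F : Set (Edge 2)} {V : Set (Site 2)} {c : Site 2} {m N : ℕ} {i : Fin 2} {s : ℤ}
    (hs : s = 1 ∨ s = -1) (hF : ∀ e ∈ F, src e ∈ V ∧ tgt e ∈ V)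
    (hV : ∀ v ∈ box c (m + 1), v ∈ V) (h : arm σ (c + Pi.single i s) m N i s) :
    far' (σ \ F) V c N i s := by
  obtain ⟨a, ha, b, hb, hbi, hc⟩ := h
  have hne : i + 1 ≠ i := by
    fin_cases i <;> decide
  have h1 : ∀ v ∈ box (c + Pi.single i s) N, v ∈ strip (i + 1) c N := by
    intro v hv
    have h2 := sn_le_iff.1 (mem_box.1 hv) (i + 1)
    rw [Pi.sub_apply, Pi.add_apply, Pi.single_eq_of_ne hne, add_zero] at h2
    exact h2
  have h3 : Conn (σ ∩ inE (strip (i + 1) c N)) a b := by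
    refine hc.mono ?_
    rintro e ⟨he, he2⟩
    have h4 := mem_In.1 (show e ∈ In (box (c + Pi.single i s) N) from he2)
    exact ⟨he, h1 _ h4.1, h1 _ h4.2⟩
  have haV : a ∈ V := by
    apply hV
    rw [mem_box]
    have h4 := mem_box.1 ha
    have h5 : a - c = (a - (c + Pi.single i s)) + Pi.single i s := by abel
    rw [h5]
    refine (sn_add_le _ _).trans ?_
    have h6 : sn (Pi.single i s : Site 2) ≤ 1 := by
      rw [sn_le_iff]
      intro j
      by_cases hj : j = i
      · subst hj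
        rw [Pi.single_eq_same]
        rcases hs with rfl | rfl <;> decide
      · rw [Pi.single_eq_of_ne hj]
        decide
    omega
  obtain ⟨a', ha', h7⟩ := conn_off hF haV h3
  refine ⟨a', ha', b, ?_, ?_⟩
  · rw [hbi, Pi.add_apply, Pi.single_eq_same]
    ring
  · refine h7.mono ?_
    rintro e ⟨⟨he1, he2⟩, he3⟩
    exact ⟨⟨he1, he3⟩, he2⟩

theorem arm_of_infinite {σ : Set (Edge 2)} {a c : Site 2} {m N : ℕ} (hmN : m ≤ N)
    (ha : a ∈ box c m) (h : {y | Conn σ a y}.Infinite) :
    (arm σ c m N 0 1 ∨ arm σ c m N 0 (-1)) ∨ (arm σ c m N 1 1 ∨ arm σ c m N 1 (-1)) := by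
  have h1 : ∃ y, Conn σ a y ∧ y ∉ box c N := by
    by_contra hc
    push Not at hc
    exact h ((box c N).finite_toSet.subset fun y hy => hc y hy)
  obtain ⟨y, hy, hy2⟩ := h1
  have haN : a ∈ box c N := by
    rw [mem_box] at ha ⊢
    exact ha.trans hmN
  obtain ⟨w, hw, hwN, hcw⟩ := conn_exit hy haN hy2
  obtain ⟨i, -, hi⟩ := Finset.exists_mem_eq_sup (Finset.univ : Finset (Fin 2))
    Finset.univ_nonempty (fun i => ((w - c) i).natAbs)
  have h2 : ((w - c) i).natAbs = N := by
    rw [← hwN]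
    exact hi.symm
  rw [Pi.sub_apply] at h2
  have h3 : arm σ c m N i 1 ∨ arm σ c m N i (-1) := by
    rcases Int.natAbs_eq (w i - c i) with h4 | h4
    · rw [h2] at h4
      exact Or.inl ⟨a, ha, w, hw, by linarith, hcw⟩
    · rw [h2] at h4
      exact Or.inr ⟨a, ha, w, hw, by linarith, hcw⟩
  fin_cases i
  · exact Or.inl h3
  · exact Or.inr h3

theorem arm_mono {σ σ' : Set (Edge 2)} (h : σ ⊆ σ') {c : Site 2} {m N : ℕ} {i : Fin 2} {s : ℤ}
    (ha : arm σ c m N i s) : arm σ' c m N i s := by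
  obtain ⟨a, ha, b, hb, hbi, hc⟩ := ha
  exact ⟨a, ha, b, hb, hbi, hc.mono (inter_subset_inter_left _ h)⟩

end Pool.Agent.TVR.G
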