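import Pool.Agent.TVR.G.Defs

/-!
# TVR part G, module Rect: connectivity of blocks

`rect_conn`: a rectangle is connected: move in the coordinate `0`, then in the coordinate `1`
(induction on the distance).
`block_conn`: the special case `box c M` (`mem_box`, `sn_le_iff`, `mem_In`).
`VD_conn`: by the definition of `VD` (`Conn.symm`, transitivity).
`VD_small`: the dual vertices `v` with `c i - M ≤ v i ≤ c i + M - 1` (`i = 0, 1`) form a rectangle; every
edge between two of them is `dl e` for an edge `e` of `box c M`: the dual edge `(w, 0)` is `dl (w + e_0, 1)`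
with the end points `w + e_0`, `w + e_0 + e_1`; the dual edge `(w, 1)` is `dl (w + e_1, 0)` with the end
points `w + e_1`, `w + e_1 + e_0`.  So all of them are in `VD c M` (`rect_conn`, `Conn.mono`).
`VD_edge`: the end points of `dl e`, `e` an edge of `box c M`: for `e = (v, 0)` the dual edge joins
`v - e_1` and `v`, `v 0 ≤ c 0 + M - 1`; if `v 1 ≤ c 1 + M - 1` then `v` is in the rectangle, else `v 1 = c 1 + M`
and `v - e_1` is (for `M ≥ 1`; `bE c 0` is empty).  Similarly for `(v, 1)`.  So one end point is in `VD`, hence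
both.
`VD_strip`: every edge of `dl '' bE c M` has its end points in both strips of radius `M + 1` around `c`.
`VD_conn'`: combine.
-/

open scoped ENNReal NNReal
open MeasureTheory Set

noncomputable section

namespace Pool.Agent.TVR.G

open RC Pool.Agent.Helper3.Anderson Pool.Agent.Helper3.Crit

private theorem trans42 {σ : Set (Edge 2)} {x y z : Site 2} (h1 : Conn σ x y) (h2 : Conn σ y z) :
    Conn σ x z := Relation.ReflTransGen.trans h1 h2

private theorem mv42 {A : Set (Site 2)} (j : Fin 2) (x : Site 2) (n : ℕ)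
    (h : ∀ k : ℕ, k ≤ n → x + Pi.single j (k : ℤ) ∈ A) :
    Conn (inE A) x (x + Pi.single j (n : ℤ)) := by
  induction n with
  | zero =>
    have : x + Pi.single j ((0 : ℕ) : ℤ) = x := by simp
    rw [this]
    exact Relation.ReflTransGen.refl
  | succ n ih =>
    have h1 := ih (fun k hk => h k (by omega))
    have h2 : x + Pi.single j ((n + 1 : ℕ) : ℤ) = x + Pi.single j (n : ℤ) + Pi.single j 1 := by
      rw [add_assoc, ← Pi.single_add]
      push_cast
      rfl
    refine Relation.ReflTransGen.tail h1 ⟨(x + Pi.single j (n : ℤ), j), ⟨?_, ?_⟩, Or.inl ⟨rfl, ?_⟩⟩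
    · exact h n (by omega)
    · have h3 := h (n + 1) le_rfl
      rw [h2] at h3
      exact h3
    · rw [h2]
      rfl

private theorem axle42 {lo hi x y : Site 2} (hx : x ∈ Icc lo hi) (hy : y ∈ Icc lo hi) (j : Fin 2)
    (h : ∀ i, i ≠ j → x i = y i) (hxy : x j ≤ y j) : Conn (inE (Icc lo hi)) x y := by
  have h1 : y = x + Pi.single j (((y j - x j).toNat : ℕ) : ℤ) := by
    funext i
    by_cases hij : i = j
    · subst hij
      simp only [Pi.add_apply, Pi.single_eq_same]
      omega
    · rw [Pi.add_apply, Pi.single_eq_of_ne hij, h i hij]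
      omega
  rw [h1]
  refine mv42 j x _ ?_
  intro k hk
  refine ⟨fun i => ?_, fun i => ?_⟩
  · have h2 : lo i ≤ x i := hx.1 i
    by_cases hij : i = j
    · subst hij
      simp only [Pi.add_apply, Pi.single_eq_same]
      omega
    · rw [Pi.add_apply, Pi.single_eq_of_ne hij]
      show lo i ≤ x i + 0
      omega
  · have h2 : x i ≤ hi i := hx.2 i
    have h3 : y i ≤ hi i := hy.2 i
    by_cases hij : i = j
    · subst hij
      simp only [Pi.add_apply, Pi.single_eq_same]
      omega
    · rw [Pi.add_apply, Pi.single_eq_of_ne hij]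
      show x i + 0 ≤ hi i
      omega

private theorem ax42 {lo hi x y : Site 2} (hx : x ∈ Icc lo hi) (hy : y ∈ Icc lo hi) (j : Fin 2)
    (h : ∀ i, i ≠ j → x i = y i) : Conn (inE (Icc lo hi)) x y := by
  rcases le_total (x j) (y j) with h1 | h1
  · exact axle42 hx hy j h h1
  · exact (axle42 hy hx j (fun i hi => (h i hi).symm) h1).symm

theorem rect_conn {lo hi x y : Site 2} (hx : x ∈ Icc lo hi) (hy : y ∈ Icc lo hi) :
    Conn (inE (Icc lo hi)) x y := by
  have hz : (![y 0, x 1] : Site 2) ∈ Icc lo hi := by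
    refine ⟨fun i => ?_, fun i => ?_⟩
    · fin_cases i
      · exact hy.1 0
      · exact hx.1 1
    · fin_cases i
      · exact hy.2 0
      · exact hx.2 1
  refine trans42 (ax42 hx hz 0 ?_) (ax42 hz hy 1 ?_)
  · intro i hi
    fin_cases i
    · exact absurd rfl hi
    · rfl
  · intro i hi
    fin_cases i
    · rfl
    · exact absurd rfl hi

theorem block_conn {c x y : Site 2} {M : ℕ} (hx : x ∈ box c M) (hy : y ∈ box c M) :
    Conn (bE c M) x y := by
  unfold box at hx hy
  rw [Finset.mem_Icc] at hx hy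
  refine Conn.mono ?_ (rect_conn hx hy)
  intro e he
  unfold bE
  rw [Finset.mem_coe, mem_In]
  unfold box
  rw [Finset.mem_Icc, Finset.mem_Icc]
  exact he

private theorem fin_ne42 {i j : Fin 2} (h : i ≠ j + 1) : i = j := by
  fin_cases i <;> fin_cases j <;> simp_all

private theorem fin_ne42' (j : Fin 2) : j ≠ j + 1 := by
  fin_cases j <;> simp

private theorem single42 (v : Site 2) (i j : Fin 2) (a : ℤ) :
    (v + Pi.single j a : Site 2) i = if i = j then v i + a else v i := by
  by_cases h : i = j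
  · subst h
    simp
  · rw [Pi.add_apply, Pi.single_eq_of_ne h, if_neg h, add_zero]

private theorem single42' (v : Site 2) (i j : Fin 2) (a : ℤ) :
    (v - Pi.single j a : Site 2) i = if i = j then v i - a else v i := by
  by_cases h : i = j
  · subst h
    simp
  · rw [Pi.sub_apply, Pi.single_eq_of_ne h, if_neg h, sub_zero]

/-- membership of a block edge -/
private theorem mem_bE42 {c v : Site 2} {j : Fin 2} {M : ℕ} : (v, j) ∈ bE c M ↔
    ∀ i, c i - M ≤ v i ∧ v i ≤ c i + M ∧ (v + Pi.single j 1 : Site 2) i ≤ c i + M := by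
  unfold bE
  rw [Finset.mem_coe, mem_In]
  unfold box
  rw [Finset.mem_Icc, Finset.mem_Icc]
  simp only [src, tgt, Pi.le_def]
  constructor
  · rintro ⟨⟨h1, h2⟩, h3, h4⟩ i
    exact ⟨h1 i, h2 i, h4 i⟩
  · intro h
    refine ⟨⟨fun i => (h i).1, fun i => (h i).2.1⟩, fun i => ?_, fun i => (h i).2.2⟩
    have h1 := (h i).1
    rw [single42]
    split_ifs <;> omega

/-- the rectangle of dual vertices -/
private theorem dual_sub42 (c : Site 2) (M : ℕ) :
    inE (Icc (fun i => c i - M) (fun i => c i + M - 1)) ⊆ dl '' bE c M := by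
  rintro ⟨w, j⟩ ⟨h1, h2⟩
  refine ⟨(w + Pi.single j 1, j + 1), ?_, ?_⟩
  · rw [mem_bE42]
    intro i
    have h3 := h2.1 i
    have h4 := h2.2 i
    have h5 := h1.2 i
    simp only [src, tgt] at h3 h4 h5
    refine ⟨h3, by omega, ?_⟩
    rw [single42]
    split_ifs <;> omega
  · exact dl.apply_symm_apply (w, j)

private theorem VD_rect42 {c v : Site 2} {M : ℕ} (hM : 1 ≤ M)
    (hv : ∀ i, c i - M ≤ v i ∧ v i ≤ c i + M - 1) : v ∈ VD c M := by
  refine Conn.mono (dual_sub42 c M) (rect_conn ⟨fun i => ?_, fun i => ?_⟩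
    ⟨fun i => (hv i).1, fun i => (hv i).2⟩)
  · show c i - M ≤ c i
    omega
  · show c i ≤ c i + M - 1
    omega

theorem VD_small {c v : Site 2} {m : ℕ} (hv : v ∈ box c (m + 1)) : v ∈ VD c (m + 2) := by
  refine VD_rect42 (by omega) (fun i => ?_)
  unfold box at hv
  rw [Finset.mem_Icc] at hv
  have h1 := hv.1 i
  have h2 := hv.2 i
  push_cast at h1 h2 ⊢
  omega

theorem VD_edge {c : Site 2} {M : ℕ} {e : Edge 2} (he : e ∈ dl '' bE c M) :
    src e ∈ VD c M ∧ tgt e ∈ VD c M := by
  obtain ⟨⟨v, j⟩, hv, rfl⟩ := he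
  have hmem : dl (v, j) ∈ dl '' bE c M := ⟨_, hv, rfl⟩
  rw [mem_bE42] at hv
  have hj := hv j
  have hj1 := hv (j + 1)
  rw [single42, if_pos rfl] at hj
  rw [single42, if_neg (fin_ne42' j).symm] at hj1
  have hM : 1 ≤ M := by omega
  have hsrc : src (dl (v, j)) = v - Pi.single (j + 1) 1 := rfl
  have htgt : tgt (dl (v, j)) = v := by
    show v - Pi.single (j + 1) 1 + Pi.single (j + 1) 1 = v
    simp
  by_cases h : v (j + 1) ≤ c (j + 1) + M - 1
  · have h1 : tgt (dl (v, j)) ∈ VD c M := by
      rw [htgt]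
      refine VD_rect42 hM (fun i => ?_)
      by_cases hi : i = j + 1
      · subst hi
        omega
      · rw [fin_ne42 hi]
        omega
    exact ⟨Relation.ReflTransGen.tail h1 ⟨_, hmem, Or.inr ⟨rfl, rfl⟩⟩, h1⟩
  · have h1 : src (dl (v, j)) ∈ VD c M := by
      rw [hsrc]
      refine VD_rect42 hM (fun i => ?_)
      rw [single42']
      by_cases hi : i = j + 1
      · subst hi
        rw [if_pos rfl]
        omega
      · rw [if_neg hi, fin_ne42 hi]
        omega
    exact ⟨h1, Relation.ReflTransGen.tail h1 ⟨_, hmem, Or.inl ⟨rfl, rfl⟩⟩⟩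

theorem VD_conn' {c s t : Site 2} {M N : ℕ} (hMN : M + 1 ≤ N) (hs : s ∈ VD c M) (ht : t ∈ VD c M) :
    Conn (dl '' bE c M ∩ inE (strip 0 c N)) s t := by
  refine Conn.mono ?_ (trans42 (Conn.symm hs) ht)
  intro e he
  refine ⟨he, ?_⟩
  obtain ⟨⟨v, j⟩, hv, rfl⟩ := he
  rw [mem_bE42] at hv
  have h0 := hv 0
  have hsrc : src (dl (v, j)) = v - Pi.single (j + 1) 1 := rfl
  have htgt : tgt (dl (v, j)) = v := by
    show v - Pi.single (j + 1) 1 + Pi.single (j + 1) 1 = v
    simp
  refine ⟨?_, ?_⟩
  · rw [hsrc]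
    show ((v - Pi.single (j + 1) 1 : Site 2) 0 - c 0).natAbs ≤ N
    rw [single42']
    split_ifs <;> omega
  · rw [htgt]
    show (v 0 - c 0).natAbs ≤ N
    omega

end Pool.Agent.TVR.G
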