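import Pool.Agent.TVR.G.Pla
import Pool.Agent.TVR.G.Rect
import Pool.Agent.TVR.G.Ext
import Pool.Agent.TVR.G.Cls

/-!
# TVR part G, module Det: the deterministic step

`u ∈ Ev p c M N` gives `a₁ → b₁` (`b₁ 0 = c 0 + (N + 1)`) and `a₂ → b₂` (`b₂ 0 = c 0 - (N + 1)`) in
`σ' = op p u \ bE c M` inside `strip 1 c N`, with `a₁, a₂ ∈ box c M`, and dual paths `s₁ → t₁`
(`t₁ 1 = c 1 + (N + 1)`), `s₂ → t₂` (`t₂ 1 = c 1 - (N + 1)`) in `du (1 - p) u \ dl '' bE c M` inside `strip 0 c N`,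
`s₁, s₂ ∈ VD c M`.  As `c ∈ box 0 n` and `2 n ≤ N`: `b₁`, `b₂` are outside of `box 0 n`, and
`box 0 n ⊆ strip 1 c N`.  `conn_exit` (centre `0`, radius `n`): `w₁, w₂` in the boundary `bd n` (`mem_bd`),
`Conn (σ' ∩ bE 0 n) a_i w_i`.  Take `a = w₁`, `b = w₂`.
Not connected: if `Conn (σ ∩ bE 0 n) w₁ w₂` then `Conn (σ ∩ inE (strip 1 c N)) b₂ b₁` (`b₂ ~ a₂ ~ w₂ ~ w₁ ~ a₁ ~ b₁`,
`Conn.symm`, `Conn.mono`, transitivity).  Put `τ = {e | dl.symm e ∉ σ}`: `Conn (τ ∩ inE (strip 0 c N)) t₂ t₁`: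
`t₂ ~ s₂ ~ s₁ ~ t₁` (`VD_conn'`; an edge of `du (1 - p) u` has `1 - p ≤ u (dl.symm e)`, so `dl.symm e ∉ σ`; an edge of
`dl '' bE c M` is not the dual of an edge of `σ`).  `planar` gives a contradiction.
Connected in `(σ ∪ bE c M) ∩ bE 0 n`: `w₁ ~ a₁ ~ a₂ ~ w₂` (`block_conn`, `bE c M ⊆ bE 0 n`).
-/

open scoped ENNReal NNReal
open MeasureTheory Set

noncomputable section

namespace Pool.Agent.TVR.G

open RC Pool.Agent.Helper3.Anderson Pool.Agent.Helper3.Crit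

theorem det_step {p : ℝ} {u : Edge 2 → ℝ} {c : Site 2} {M N n : ℕ} (hn : 1 ≤ n)
    (hc : box c M ⊆ box 0 n) (hN : 2 * n ≤ N) (hM : M + 1 ≤ N) {σ : Set (Edge 2)}
    (h1 : op p u \ bE c M ⊆ σ) (h2 : ∀ e ∈ σ, u e < 1 - p ∧ e ∉ bE c M) (hE : u ∈ Ev p c M N) :
    ∃ a ∈ bd n, ∃ b ∈ bd n, ¬ Conn (σ ∩ bE 0 n) a b ∧ Conn ((σ ∪ bE c M) ∩ bE 0 n) a b := by
  obtain ⟨⟨⟨a₁, ha₁, b₁, hb₁, c₁⟩, a₂, ha₂, b₂, hb₂, c₂⟩, ⟨s₁, hs₁, t₁, ht₁, d₁⟩, s₂, hs₂, t₂, ht₂, d₂⟩ := hE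
  have e01 : (0 : Fin 2) + 1 = 1 := rfl
  have e11 : (1 : Fin 2) + 1 = 0 := rfl
  rw [e01] at c₁ c₂
  rw [e11] at d₁ d₂
  have hcb : c ∈ box 0 n := hc (mem_box.2 (by
    rw [sub_self, sn_le_iff]
    intro i
    simp))
  have hci : ∀ i, (c i).natAbs ≤ n := by
    have := mem_box.1 hcb
    rw [sub_zero, sn_le_iff] at this
    exact this
  have hbx : ∀ v : Site 2, v ∈ box 0 n → ∀ i, (v i).natAbs ≤ n := by
    intro v hv
    have := mem_box.1 hv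
    rw [sub_zero, sn_le_iff] at this
    exact this
  have hb₁' : b₁ ∉ box 0 n := by
    intro hb
    have h3 := hbx b₁ hb 0
    have h4 := hci 0
    rw [hb₁] at h3
    omega
  have hb₂' : b₂ ∉ box 0 n := by
    intro hb
    have h3 := hbx b₂ hb 0
    have h4 := hci 0
    rw [hb₂] at h3
    omega
  obtain ⟨w₁, hw₁, hw₁', cw₁⟩ := conn_exit (Conn.mono inter_subset_left c₁)
    (hc (Finset.mem_coe.1 ha₁)) hb₁'
  obtain ⟨w₂, hw₂, hw₂', cw₂⟩ := conn_exit (Conn.mono inter_subset_left c₂)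
    (hc (Finset.mem_coe.1 ha₂)) hb₂'
  rw [sub_zero] at hw₁' hw₂'
  have hstrip : bE 0 n ⊆ inE (strip 1 c N) := by
    intro e he
    have he' := mem_In.1 (Finset.mem_coe.1 he)
    have h4 := hci 1
    constructor
    · have h3 := hbx _ he'.1 1
      show ((src e) 1 - c 1).natAbs ≤ N
      omega
    · have h3 := hbx _ he'.2 1
      show ((tgt e) 1 - c 1).natAbs ≤ N
      omega
  refine ⟨w₁, (mem_bd hn).2 hw₁', w₂, (mem_bd hn).2 hw₂', ?_, ?_⟩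
  · intro hcon
    have m1 : (op p u \ bE c M) ∩ bE 0 n ⊆ σ ∩ inE (strip 1 c N) :=
      inter_subset_inter h1 hstrip
    have m2 : (op p u \ bE c M) ∩ inE (strip 1 c N) ⊆ σ ∩ inE (strip 1 c N) :=
      inter_subset_inter h1 (Subset.refl _)
    have hσ : Conn (σ ∩ inE (strip 1 c N)) b₂ b₁ :=
      (((((Conn.mono m2 c₂).symm).trans (Conn.mono m1 cw₂)).trans
        (Conn.mono (inter_subset_inter_right σ hstrip) hcon).symm).trans
        (Conn.mono m1 cw₁).symm).trans (Conn.mono m2 c₁)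
    have m3 : (du (1 - p) u \ dl '' bE c M) ∩ inE (strip 0 c N) ⊆
        {e | dl.symm e ∉ σ} ∩ inE (strip 0 c N) := by
      rintro e ⟨⟨he1, -⟩, he2⟩
      refine ⟨fun hes => ?_, he2⟩
      have h3 := (h2 _ hes).1
      have h4 : 1 - p ≤ u (dl.symm e) := he1
      linarith
    have m4 : dl '' bE c M ∩ inE (strip 0 c N) ⊆ {e | dl.symm e ∉ σ} ∩ inE (strip 0 c N) := by
      rintro e ⟨⟨f, hf, rfl⟩, he2⟩
      refine ⟨fun hes => ?_, he2⟩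
      rw [Equiv.symm_apply_apply] at hes
      exact (h2 _ hes).2 hf
    have hτ : Conn ({e | dl.symm e ∉ σ} ∩ inE (strip 0 c N)) t₂ t₁ :=
      (((Conn.mono m3 d₂).symm).trans (Conn.mono m4 (VD_conn' hM hs₂ hs₁))).trans
        (Conn.mono m3 d₁)
    refine planar (fun e he h => ?_) hσ ?_ ?_ hτ ?_ ?_
    · exact h (by rw [Equiv.symm_apply_apply]; exact he)
    · rw [hb₂]; ring
    · rw [hb₁]; ring
    · rw [ht₂]; ring
    · rw [ht₁]; ring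
  · have m1 : (op p u \ bE c M) ∩ bE 0 n ⊆ (σ ∪ bE c M) ∩ bE 0 n :=
      inter_subset_inter_left _ (h1.trans subset_union_left)
    have m2 : bE c M ⊆ (σ ∪ bE c M) ∩ bE 0 n := by
      intro e he
      refine ⟨Or.inr he, ?_⟩
      have he' := mem_In.1 (Finset.mem_coe.1 he)
      exact Finset.mem_coe.2 (mem_In.2 ⟨hc he'.1, hc he'.2⟩)
    exact (((Conn.mono m1 cw₁).symm).trans (Conn.mono m2 (block_conn (Finset.mem_coe.1 ha₁)
      (Finset.mem_coe.1 ha₂)))).trans (Conn.mono m1 cw₂)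

end Pool.Agent.TVR.G
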