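import Pool.Agent.TVR.G.Pa
import Pool.Agent.TVR.G.Det

/-!
# TVR part G, module Fin: no percolation below `1/2`
-/

open scoped ENNReal NNReal
open MeasureTheory Set

noncomputable section

namespace Pool.Agent.TVR.G

open RC Pool.Agent.Helper3.Anderson Pool.Agent.Helper3.Crit

/-- the centre of the block number `j` -/
def ctr (M : ℕ) (j : Site 2) : Site 2 := fun i => (2 * M + 1) * j i

/-- open at `p`, and at `1 - p` in the blocks of `S` -/
def cfg (p : ℝ) (M : ℕ) (u : Edge 2 → ℝ) (S : Finset (Site 2)) : Set (Edge 2) :=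
  {e | u e < p ∨ ∃ j ∈ S, e ∈ bE (ctr M j) M ∧ u e < 1 - p}

theorem mem_box' {x y : Site 2} {L : ℕ} : y ∈ box x L ↔ ∀ i, |y i - x i| ≤ L := by
  rw [mem_box, sn_le_iff]
  refine forall_congr' fun i => ?_
  rw [Pi.sub_apply, ← Int.natCast_natAbs]
  exact Nat.cast_le.symm

theorem block_disj {M : ℕ} {j j' v : Site 2} (h : v ∈ box (ctr M j) M)
    (h' : v ∈ box (ctr M j') M) : j = j' := by
  rw [mem_box'] at h h'
  funext i
  have h1 := h i
  have h2 := h' i
  unfold ctr at h1 h2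
  rw [abs_le] at h1 h2
  by_contra hne
  rcases lt_or_gt_of_ne hne with hlt | hlt
  · have : (2 * (M : ℤ) + 1) * (j i + 1) ≤ (2 * M + 1) * j' i :=
      mul_le_mul_of_nonneg_left (by omega) (by omega)
    linarith
  · have : (2 * (M : ℤ) + 1) * (j' i + 1) ≤ (2 * M + 1) * j i :=
      mul_le_mul_of_nonneg_left (by omega) (by omega)
    linarith

theorem block_sub {M K : ℕ} {j : Site 2} (hj : j ∈ box 0 K) :
    box (ctr M j) M ⊆ box 0 ((2 * M + 1) * K + M) := by
  intro v hv
  rw [mem_box'] at hj hv ⊢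
  intro i
  have h1 := hj i
  have h2 := hv i
  unfold ctr at h2
  rw [abs_le] at h1 h2 ⊢
  simp only [Pi.zero_apply, sub_zero] at h1 ⊢
  have h3 : (2 * (M : ℤ) + 1) * j i ≤ (2 * M + 1) * K :=
    mul_le_mul_of_nonneg_left h1.2 (by omega)
  have h4 : (2 * (M : ℤ) + 1) * (-K) ≤ (2 * M + 1) * j i :=
    mul_le_mul_of_nonneg_left h1.1 (by omega)
  push_cast
  constructor <;> linarith

theorem conn_equiv (σ : Set (Edge 2)) : Equivalence (Conn σ) :=
  ⟨fun _ => Relation.ReflTransGen.refl, fun h => h.symm, fun h h' => Relation.ReflTransGen.trans h h'⟩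

open Classical in
/-- the number of good blocks is at most the number of boundary sites -/
theorem good_le {p : ℝ} (hp : p < 1 / 2) (M K : ℕ) (hM : 1 ≤ M) (u : Edge 2 → ℝ) :
    ((box (0 : Site 2) K).filter fun j => u ∈ Bl p (ctr M j) M ∩
      Ev p (ctr M j) M (2 * ((2 * M + 1) * K + M) + 1)).card ≤ (bd ((2 * M + 1) * K + M)).card := by
  refine count_le (Φ := fun S => Conn (cfg p M u S ∩ bE 0 ((2 * M + 1) * K + M)))
    (fun S => conn_equiv _) (fun S S' h x y hc => ?_) _ (fun j hj S hjS => ?_)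
  · refine Conn.mono ?_ hc
    rintro e ⟨h1 | ⟨j, hj, h2, h3⟩, h4⟩
    · exact ⟨Or.inl h1, h4⟩
    · exact ⟨Or.inr ⟨j, h hj, h2, h3⟩, h4⟩
  · obtain ⟨hj1, hB, hE⟩ := Finset.mem_filter.1 hj
    have h0 : ∀ e ∈ cfg p M u S, u e < 1 - p ∧ e ∉ bE (ctr M j) M := by
      intro e he
      rcases he with he | ⟨i, hi, he1, he2⟩
      · refine ⟨lt_trans he (by linarith), fun hc => ?_⟩
        have := (hB e hc).1
        linarith
      · refine ⟨he2, fun hc => ?_⟩
        have h3 := (mem_In.1 hc).1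
        have h4 := (mem_In.1 he1).1
        exact hjS (block_disj h3 h4 ▸ hi)
    obtain ⟨a, ha, b, hb, h1, h2⟩ := det_step (σ := cfg p M u S) (c := ctr M j) (M := M)
      (N := 2 * ((2 * M + 1) * K + M) + 1) (n := (2 * M + 1) * K + M) (by nlinarith)
      (block_sub hj1) (by omega) (by nlinarith) (fun e he => Or.inl he.1) h0 hE
    refine ⟨a, ha, b, hb, h1, Conn.mono ?_ h2⟩
    rintro e ⟨h3 | h3, h4⟩
    · rcases h3 with h3 | ⟨i, hi, h3⟩
      · exact ⟨Or.inl h3, h4⟩
      · exact ⟨Or.inr ⟨i, Finset.mem_insert_of_mem hi, h3⟩, h4⟩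
    · exact ⟨Or.inr ⟨j, Finset.mem_insert_self j S, h3, (hB e h3).2⟩, h4⟩

theorem perco_one : Perco 2 1 := by
  have hone : ∀ e : Edge 2, (PE 2 unif) {u : Edge 2 → ℝ | u e < 1}ᶜ = 0 := by
    intro e
    have h2 := prob_all (κ := unif) ({e} : Finset (Edge 2)) (J := (Iio 1)ᶜ)
      measurableSet_Iio.compl
    have h3 : {ω : Edge 2 → ℝ | ∀ i ∈ ({e} : Finset (Edge 2)), ω i ∈ (Iio (1:ℝ))ᶜ}
        = {u : Edge 2 → ℝ | u e < 1}ᶜ := by
      ext u
      simp
    rw [h3] at h2
    rw [h2]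
    have h4 : unif (Iio (1:ℝ))ᶜ = 0 := by
      unfold unif
      rw [Measure.restrict_apply measurableSet_Iio.compl]
      have : (Iio (1:ℝ))ᶜ ∩ Icc (0:ℝ) 1 ⊆ {1} := by
        intro t ht
        simp only [mem_inter_iff, mem_compl_iff, mem_Iio, not_lt, mem_Icc] at ht
        exact le_antisymm ht.2.2 ht.1
      exact measure_mono_null this (by simp)
    rw [h4]
    simp
  have hall : (PE 2 unif) {u : Edge 2 → ℝ | ∀ e, u e < 1}ᶜ = 0 := by
    have h1 : {u : Edge 2 → ℝ | ∀ e, u e < 1}ᶜ = ⋃ e : Edge 2, {u : Edge 2 → ℝ | u e < 1}ᶜ := by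
      rw [← compl_iInter]
      congr 1
      ext u
      rw [mem_iInter]
      rfl
    rw [h1]
    exact measure_iUnion_null hone
  have hsub : {u : Edge 2 → ℝ | {y | Conn {e | u e < 1} 0 y}.Infinite}ᶜ ⊆
      {u : Edge 2 → ℝ | ∀ e, u e < 1}ᶜ := by
    rw [compl_subset_compl]
    intro u hu
    have h1 : ∀ n : ℕ, Conn {e | u e < 1} 0 (Pi.single (0 : Fin 2) (n : ℤ)) := by
      intro n
      induction n with
      | zero =>
        simp only [Nat.cast_zero, Pi.single_zero]
        exact Relation.ReflTransGen.refl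
      | succ n ih =>
        refine Relation.ReflTransGen.tail ih
          ⟨(Pi.single (0 : Fin 2) (n : ℤ), 0), hu _, Or.inl ⟨rfl, ?_⟩⟩
        unfold tgt
        simp only [Nat.cast_add, Nat.cast_one]
        exact (Pi.single_add (f := fun _ : Fin 2 => ℤ) 0 (n : ℤ) 1).symm
    refine Set.infinite_of_injective_forall_mem
      (f := fun n : ℕ => (Pi.single (0 : Fin 2) (n : ℤ) : Site 2)) ?_ h1
    intro m n hmn
    have h2 := congrFun hmn 0
    simp only [Pi.single_eq_same] at h2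
    exact_mod_cast h2
  have h0 : (PE 2 unif) {u : Edge 2 → ℝ | {y | Conn {e | u e < 1} 0 y}.Infinite}ᶜ = 0 :=
    measure_mono_null hsub hall
  change 0 < (PE 2 unif) {u : Edge 2 → ℝ | {y | Conn {e | u e < 1} 0 y}.Infinite}
  rw [pos_iff_ne_zero]
  intro h2
  have h3 : (PE 2 unif) univ ≤ 0 := by
    rw [← union_compl_self {u : Edge 2 → ℝ | {y | Conn {e | u e < 1} 0 y}.Infinite}]
    refine (measure_union_le _ _).trans ?_
    rw [h2, h0, add_zero]
  rw [measure_univ] at h3
  exact absurd h3 (by simp)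

theorem half_le_pc : (1 / 2 : ℝ) ≤ pc 2 := by
  have hne : {p | Perco 2 p}.Nonempty := ⟨1, perco_one⟩
  refine le_csInf hne fun p hP => ?_
  by_contra hlt
  rw [not_le] at hlt
  have hp0 : 0 ≤ p := nonneg_of_perco hP
  obtain ⟨m, hm⟩ := block_prob hp0 hlt hP
  set M := m + 2 with hM
  set q : ℝ := (1 - 2 * p) ^ (2 * (2 * M + 1) ^ 2) / 2 with hq
  have hq0 : 0 < q := by
    have : (0 : ℝ) < 1 - 2 * p := by linarith
    positivity
  obtain ⟨K, hK⟩ := exists_nat_gt (8 * (2 * (M : ℝ) + 1) / q)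
  have hKq : 8 * (2 * (M : ℝ) + 1) < K * q := (div_lt_iff₀ hq0).1 hK
  set n := (2 * M + 1) * K + M with hn
  set N := 2 * n + 1 with hN
  classical
  have h1 : ∀ j ∈ box (0 : Site 2) K,
      q ≤ (PE 2 unif).real (Bl p (ctr M j) M ∩ Ev p (ctr M j) M N) := by
    intro j _
    refine hm (ctr M j) N ?_
    have : 0 ≤ (2 * M + 1) * K := Nat.zero_le _
    omega
  have hmeas : ∀ j, MeasurableSet (Bl p (ctr M j) M ∩ Ev p (ctr M j) M N) := fun j =>
    (Bl_meas _ _ _).inter (Ev_meas _ _ _ _)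
  have h2 : ∑ j ∈ box (0 : Site 2) K, (PE 2 unif).real (Bl p (ctr M j) M ∩ Ev p (ctr M j) M N) ≤
      (bd n).card := by
    have h3 : ∀ j, (PE 2 unif).real (Bl p (ctr M j) M ∩ Ev p (ctr M j) M N) =
        ∫ u, (Bl p (ctr M j) M ∩ Ev p (ctr M j) M N).indicator (fun _ => (1 : ℝ)) u
          ∂(PE 2 unif) := by
      intro j
      rw [integral_indicator_const _ (hmeas j), smul_eq_mul, mul_one]
    simp only [h3]
    rw [← integral_finsetSum]
    · have h4 : ∀ u, ∑ j ∈ box (0 : Site 2) K,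
          (Bl p (ctr M j) M ∩ Ev p (ctr M j) M N).indicator (fun _ => (1 : ℝ)) u ≤
          (bd n).card := by
        intro u
        have h5 := good_le hlt M K (by omega) u
        have h6 : ∑ j ∈ box (0 : Site 2) K,
            (Bl p (ctr M j) M ∩ Ev p (ctr M j) M N).indicator (fun _ => (1 : ℝ)) u =
            ((box (0 : Site 2) K).filter fun j => u ∈ Bl p (ctr M j) M ∩
              Ev p (ctr M j) M N).card := by
          rw [Finset.card_filter]
          push_cast
          refine Finset.sum_congr rfl fun j _ => ?_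
          simp only [indicator_apply]
        rw [h6]
        exact_mod_cast h5
      calc _ ≤ ∫ _u, ((bd n).card : ℝ) ∂(PE 2 unif) := by
            refine integral_mono ?_ (integrable_const _) h4
            exact integrable_finsetSum _ fun j _ => (integrable_const 1).indicator (hmeas j)
        _ = (bd n).card := by simp
    · exact fun j _ => (integrable_const 1).indicator (hmeas j)
  have h3 : ((2 * K + 1) ^ 2 : ℝ) * q ≤ 8 * n := by
    have h4 := Finset.card_nsmul_le_sum _ _ _ h1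
    rw [card_box, nsmul_eq_mul] at h4
    have h5 : ((bd n).card : ℝ) = 8 * n := by
      have : 1 ≤ n := by
        have : 0 ≤ (2 * M + 1) * K := Nat.zero_le _
        omega
      rw [card_bd this]
      push_cast
      ring
    rw [h5] at h2
    push_cast at h4
    linarith
  have h4 : (8 : ℝ) * n ≤ 8 * (2 * M + 1) * (2 * K + 1) := by
    rw [hn]
    push_cast
    have : (0 : ℝ) ≤ M := Nat.cast_nonneg _
    have : (0 : ℝ) ≤ K := Nat.cast_nonneg _
    nlinarith
  have h5 : (0 : ℝ) < 2 * K + 1 := by positivity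
  have h6 : (2 * (K : ℝ) + 1) * q ≤ 8 * (2 * M + 1) := by
    have h7 : (2 * (K : ℝ) + 1) * ((2 * K + 1) * q) ≤ (2 * K + 1) * (8 * (2 * M + 1)) := by
      nlinarith
    exact le_of_mul_le_mul_left h7 h5
  have h7 : (0 : ℝ) ≤ K * q := by positivity
  nlinarith

/-- exponential decay below `1/2` -/
theorem decay {p : ℝ} (h0 : 0 ≤ p) (h1 : p < 1 / 2) :
    ∃ A c : ℝ, 0 < A ∧ 0 < c ∧ ∀ n : ℕ, th 2 p n ≤ A * Real.exp (-(c * n)) :=
  decay_of_lt_pc (by norm_num) h0 (lt_of_lt_of_le h1 half_le_pc)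

end Pool.Agent.TVR.G
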