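import Pool.Agent.RC.PC

/-!
# TVR part G (architect helper40): no percolation below `1/2` on `ℤ²`, definitions

Bond percolation on `ℤ²` as in `RC.PDefs`: `Site 2 = Fin 2 → ℤ`, `Edge 2 = Site 2 × Fin 2`, the edge
`(x, j)` joins `x` and `x + e_j`; the edge `e` is open at `p` if `u e < p`.

Dual lattice: the dual vertex `v` is the point `v + (1/2, 1/2)`; `dl e` is the dual edge which
crosses the edge `e`: `dl (v, 0) = (v - e_1, 1)`, `dl (v, 1) = (v - e_0, 0)`.
The dual edge of `e` is used if `e` is closed at `q`: `q ≤ u e`.

Plan of the proof of `1/2 ≤ pc 2`.  Let `p < 1/2` and suppose `Perco 2 p`; put `q = 1 - p > p`.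
Take a block `box c M` and the event `Ev p c M N`: there are open paths (`u < p`) from the block to
the far left and to the far right and dual paths of closed edges (`q ≤ u`) to the far top and to the
far bottom, all outside the edges of the block.  By the square root trick (Harris' inequality,
zero-one law) and duality it has probability at least `1/2` for a suitable `M` and all large `N`.
Tile `box 0 n` by blocks and raise the threshold from `p` to `q` in one block after the other.
If `Ev` occurs and all the edges of the block have `p ≤ u e < q`, this step merges two clusters of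
`box 0 n` which touch its boundary.  So the number of such blocks is at most the number of
boundary sites: `(2 K + 1)² * (q - p)^C / 2 ≤ 8 n = O(K)` for all `K`: contradiction.
-/

open scoped ENNReal NNReal
open MeasureTheory Set

noncomputable section

namespace Pool.Agent.TVR.G

open RC Pool.Agent.Helper3.Anderson Pool.Agent.Helper3.Crit

/-- the dual edge (in shifted coordinates) -/
def dl : Edge 2 ≃ Edge 2 where
  toFun e := (e.1 - Pi.single (e.2 + 1) 1, e.2 + 1)
  invFun e := (e.1 + Pi.single e.2 1, e.2 + 1)
  left_inv := by
    rintro ⟨v, j⟩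
    have h : j + 1 + 1 = j := by fin_cases j <;> rfl
    simp [h]
  right_inv := by
    rintro ⟨v, j⟩
    have h : j + 1 + 1 = j := by fin_cases j <;> rfl
    simp [h]

/-- the edges with both end points in `A` -/
def inE (A : Set (Site 2)) : Set (Edge 2) := {e | src e ∈ A ∧ tgt e ∈ A}

/-- the edges of the box, as a set -/
def bE (c : Site 2) (N : ℕ) : Set (Edge 2) := (In (box c N) : Finset (Edge 2))

/-- the strip `|v i - c i| ≤ N` -/
def strip (i : Fin 2) (c : Site 2) (N : ℕ) : Set (Site 2) := {v | (v i - c i).natAbs ≤ N}

/-- the open edges -/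
def op (p : ℝ) (u : Edge 2 → ℝ) : Set (Edge 2) := {e | u e < p}

/-- the dual edges of the closed edges -/
def du (q : ℝ) (u : Edge 2 → ℝ) : Set (Edge 2) := {e | q ≤ u (dl.symm e)}

/-- a path in `box c N` from `box c m` to the side `v i = c i + s N` (`s = 1` or `s = -1`) -/
def arm (σ : Set (Edge 2)) (c : Site 2) (m N : ℕ) (i : Fin 2) (s : ℤ) : Prop :=
  ∃ a ∈ box c m, ∃ b ∈ box c N, b i = c i + s * N ∧ Conn (σ ∩ bE c N) a b

/-- a path from `V` to the line `v i = c i + s (N + 1)` inside the strip of the other coordinate -/
def far' (σ : Set (Edge 2)) (V : Set (Site 2)) (c : Site 2) (N : ℕ) (i : Fin 2) (s : ℤ) : Prop :=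
  ∃ a ∈ V, ∃ b : Site 2, b i = c i + s * (N + 1) ∧ Conn (σ ∩ inE (strip (i + 1) c N)) a b

/-- the dual vertices of the block -/
def VD (c : Site 2) (M : ℕ) : Set (Site 2) := {v | Conn (dl '' bE c M) c v}

/-- the four arms event of the block `box c M`; it does not depend on the edges of the block -/
def Ev (p : ℝ) (c : Site 2) (M N : ℕ) : Set (Edge 2 → ℝ) :=
  {u | (far' (op p u \ bE c M) (box c M : Finset (Site 2)) c N 0 1 ∧
      far' (op p u \ bE c M) (box c M : Finset (Site 2)) c N 0 (-1)) ∧
    far' (du (1 - p) u \ dl '' bE c M) (VD c M) c N 1 1 ∧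
      far' (du (1 - p) u \ dl '' bE c M) (VD c M) c N 1 (-1)}

/-- the boundary of the box `box 0 n` -/
def bd (n : ℕ) : Finset (Site 2) := box 0 n \ box 0 (n - 1)

end Pool.Agent.TVR.G
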