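import Pool.Agent.TVR.G.Defs
import Pool.Agent.BGE.Harris

/-!
# TVR part G, module Fkg: Harris' inequality for events in finitely many coordinates

`Dep S A`: the event only depends on the coordinates in `S`; `Up A`: increasing.
`fkg`: the restriction of `PE 2 unif` to the coordinates in `S` is the finite product measure
(`MeasureTheory.Measure.infinitePi_map_restrict` or `infinitePi_map_...`; then
`measurePreserving_piCongrLeft` to get `Fin N`), and the indicator functions of the complements of `A` and `B`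
are antitone: `BGE`'s `harris` gives `P Aᶜ * P Bᶜ ≤ P (Aᶜ ∩ Bᶜ)`, and
`P (A ∩ B) = 1 - P Aᶜ - P Bᶜ + P (Aᶜ ∩ Bᶜ) ≥ (1 - P Aᶜ) (1 - P Bᶜ) = P A * P B`.
`fkg4`: four events, `fkg` three times.
-/

open scoped ENNReal NNReal
open MeasureTheory Set

noncomputable section

namespace Pool.Agent.TVR.G

open RC Pool.Agent.Helper3.Anderson Pool.Agent.Helper3.Crit

/-- `A` depends only on the coordinates in `S` -/
def Dep (S : Finset (Edge 2)) (A : Set (Edge 2 → ℝ)) : Prop :=
  ∀ u v : Edge 2 → ℝ, (∀ e ∈ S, u e = v e) → (u ∈ A ↔ v ∈ A)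

/-- increasing event -/
def Up (A : Set (Edge 2 → ℝ)) : Prop := ∀ u v : Edge 2 → ℝ, (∀ e, u e ≤ v e) → u ∈ A → v ∈ A

/-- Harris' inequality for increasing events of `ℝ^N`. -/
private theorem fkg_fin99 {N : ℕ} {A B : Set (Fin N → ℝ)} (mA : MeasurableSet A)
    (mB : MeasurableSet B) (uA : ∀ u v : Fin N → ℝ, u ≤ v → u ∈ A → v ∈ A)
    (uB : ∀ u v : Fin N → ℝ, u ≤ v → u ∈ B → v ∈ B) :
    (Measure.pi fun _ : Fin N => unif).real A * (Measure.pi fun _ : Fin N => unif).real B ≤
      (Measure.pi fun _ : Fin N => unif).real (A ∩ B) := by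
  set ν : Measure (Fin N → ℝ) := Measure.pi fun _ : Fin N => unif with hν
  have anti : ∀ {A : Set (Fin N → ℝ)}, (∀ u v : Fin N → ℝ, u ≤ v → u ∈ A → v ∈ A) →
      Antitone (Aᶜ.indicator (1 : (Fin N → ℝ) → ℝ≥0∞)) := by
    intro A hA u v huv
    by_cases h : v ∈ A
    · rw [indicator_of_notMem (by simpa using h)]
      exact zero_le
    · have h1 : u ∉ A := fun h2 => h (hA u v huv h2)
      rw [indicator_of_mem (by simpa using h), indicator_of_mem (by simpa using h1)]
      exact le_rfl
  have m1 : Measurable (Aᶜ.indicator (1 : (Fin N → ℝ) → ℝ≥0∞)) :=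
    measurable_one.indicator mA.compl
  have m2 : Measurable (Bᶜ.indicator (1 : (Fin N → ℝ) → ℝ≥0∞)) :=
    measurable_one.indicator mB.compl
  have h1 := BGE.harris (fun _ : Fin N => unif) m1 m2 (anti uA) (anti uB)
  rw [← hν, lintegral_indicator_one mA.compl, lintegral_indicator_one mB.compl] at h1
  have h2 : (fun x => Aᶜ.indicator (1 : (Fin N → ℝ) → ℝ≥0∞) x * Bᶜ.indicator 1 x) =
      (Aᶜ ∩ Bᶜ).indicator 1 := by
    rw [inter_indicator_one]
    rfl
  rw [h2, lintegral_indicator_one (mA.compl.inter mB.compl), ← compl_union] at h1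
  have h3 : ν.real Aᶜ * ν.real Bᶜ ≤ ν.real (A ∪ B)ᶜ := by
    unfold Measure.real
    rw [← ENNReal.toReal_mul]
    exact ENNReal.toReal_mono (measure_ne_top _ _) h1
  rw [probReal_compl_eq_one_sub mA, probReal_compl_eq_one_sub mB,
    probReal_compl_eq_one_sub (mA.union mB)] at h3
  have h4 := measureReal_union_add_inter (μ := ν) (s := A) mB
  nlinarith

theorem fkg {S : Finset (Edge 2)} {A B : Set (Edge 2 → ℝ)} (mA : MeasurableSet A)
    (mB : MeasurableSet B) (hA : Dep S A) (hB : Dep S B) (uA : Up A) (uB : Up B) :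
    (PE 2 unif).real A * (PE 2 unif).real B ≤ (PE 2 unif).real (A ∩ B) := by
  classical
  let e := S.equivFin
  let f : Fin S.card → Edge 2 := fun i => (e.symm i : Edge 2)
  have hf : Function.Injective f := fun i j h => e.symm.injective (Subtype.ext h)
  let ext : (Fin S.card → ℝ) → (Edge 2 → ℝ) := fun w g =>
    if h : g ∈ S then w (e ⟨g, h⟩) else 0
  have mext : Measurable ext := by
    rw [measurable_pi_iff]
    intro g
    by_cases h : g ∈ S
    · have : (fun w : Fin S.card → ℝ => ext w g) = fun w => w (e ⟨g, h⟩) := by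
        funext w
        exact dif_pos h
      rw [this]
      exact measurable_pi_apply _
    · have : (fun w : Fin S.card → ℝ => ext w g) = fun _ => 0 := by
        funext w
        exact dif_neg h
      rw [this]
      exact measurable_const
  have mono : ∀ w w' : Fin S.card → ℝ, w ≤ w' → ∀ g, ext w g ≤ ext w' g := by
    intro w w' h g
    by_cases hg : g ∈ S
    · have e1 : ext w g = w (e ⟨g, hg⟩) := dif_pos hg
      have e2 : ext w' g = w' (e ⟨g, hg⟩) := dif_pos hg
      rw [e1, e2]
      exact h _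
    · have e1 : ext w g = 0 := dif_neg hg
      have e2 : ext w' g = 0 := dif_neg hg
      rw [e1, e2]
  have mπ : Measurable fun (u : Edge 2 → ℝ) (i : Fin S.card) => u (f i) := by
    rw [measurable_pi_iff]
    intro i
    exact measurable_pi_apply _
  have law : (PE 2 unif).map (fun (u : Edge 2 → ℝ) (i : Fin S.card) => u (f i)) =
      Measure.pi fun _ : Fin S.card => unif := by
    have h1 := Measure.map_infinitePi_infinitePi_of_inj (P := fun _ : Edge 2 => unif) hf
    exact h1.trans (Measure.infinitePi_eq_pi _)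
  have key : ∀ {A : Set (Edge 2 → ℝ)}, MeasurableSet A → Dep S A →
      (PE 2 unif).real A = (Measure.pi fun _ : Fin S.card => unif).real (ext ⁻¹' A) := by
    intro A mA hA
    rw [← law]
    unfold Measure.real
    rw [Measure.map_apply mπ (mext mA)]
    congr 2
    ext u
    rw [mem_preimage, mem_preimage]
    apply hA
    intro g hg
    have e1 : ext (fun i : Fin S.card => u (f i)) g = u (f (e ⟨g, hg⟩)) := dif_pos hg
    rw [e1]
    have e2 : f (e ⟨g, hg⟩) = g := by
      change ((e.symm (e ⟨g, hg⟩) : S) : Edge 2) = g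
      rw [e.symm_apply_apply]
    rw [e2]
  have hAB : Dep S (A ∩ B) := by
    intro u v h
    rw [mem_inter_iff, mem_inter_iff, hA u v h, hB u v h]
  rw [key mA hA, key mB hB, key (mA.inter mB) hAB, preimage_inter]
  exact fkg_fin99 (mext mA) (mext mB) (fun u v h hu => uA _ _ (mono u v h) hu)
    (fun u v h hu => uB _ _ (mono u v h) hu)

theorem fkg4 {S : Finset (Edge 2)} {A B C D : Set (Edge 2 → ℝ)} (mA : MeasurableSet A)
    (mB : MeasurableSet B) (mC : MeasurableSet C) (mD : MeasurableSet D) (hA : Dep S A)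
    (hB : Dep S B) (hC : Dep S C) (hD : Dep S D) (uA : Up A) (uB : Up B) (uC : Up C) (uD : Up D) :
    (PE 2 unif).real A * (PE 2 unif).real B * ((PE 2 unif).real C * (PE 2 unif).real D) ≤
      (PE 2 unif).real ((A ∩ B) ∩ (C ∩ D)) := by
  have dep : ∀ {A B : Set (Edge 2 → ℝ)}, Dep S A → Dep S B → Dep S (A ∩ B) := by
    intro A B hA hB u v h
    rw [mem_inter_iff, mem_inter_iff, hA u v h, hB u v h]
  have up : ∀ {A B : Set (Edge 2 → ℝ)}, Up A → Up B → Up (A ∩ B) := by
    intro A B hA hB u v h hu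
    exact ⟨hA u v h hu.1, hB u v h hu.2⟩
  refine le_trans ?_ (fkg (mA.inter mB) (mC.inter mD) (dep hA hB) (dep hC hD) (up uA uB)
    (up uC uD))
  exact mul_le_mul (fkg mA mB hA hB uA uB) (fkg mC mD hC hD uC uD)
    (mul_nonneg measureReal_nonneg measureReal_nonneg) measureReal_nonneg

end Pool.Agent.TVR.G
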