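import Pool.Agent.TVR.G.Defs

/-!
# TVR part G, module Sym: invariance of the law

`PE_perm`: the law is invariant under permutations of the edges (`Measure.eq_infinitePi` and
`Measure.infinitePi_pi`: the preimage of a box is a box).
`PE_flip`: and under `u ↦ 1 - u` (`unif` is invariant under `t ↦ 1 - t`).
`Sy τ T`: the permutation `T` of the edges is induced by the permutation `τ` of the sites.
`conn_sy`: induction on the path.
`op_perm`: `op p (u ∘ T) = T⁻¹' (op p u)`.
`arm_sy`: if `Sy τ T` and `τ` maps `box c N` onto `box c' N` (for all `N`) and `(τ v) i' - c' i' = s' s (v i - c i)` then the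
arms of `σ` at `c` correspond to the arms of `T '' σ` at `c'`.
`prob_arm`: the probability does not depend on `c`, `i`, `s`: use the translation by `c`, the reflection
`v i ↦ - v i` (edges: `(v, j) ↦ (τ v, j)` for `j ≠ i` and `(v, i) ↦ (τ v - e_i, i)`) and the swap of the
coordinates.
`prob_dual`: `Φ u = fun e => 1 - u (dl.symm e)` preserves the law and
`op p (Φ u) = {e | 1 - p < u (dl.symm e)} ⊆ du (1 - p) u`, so `¬ arm (du (1 - p) u) → ¬ arm (op p (Φ u))` (monotonicity
of `arm` in `σ`).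
-/

open scoped ENNReal NNReal
open MeasureTheory Set

noncomputable section

namespace Pool.Agent.TVR.G

open RC Pool.Agent.Helper3.Anderson Pool.Agent.Helper3.Crit

theorem PE_perm (T : Edge 2 ≃ Edge 2) :
    (PE 2 unif).map (fun u e => u (T e)) = PE 2 unif := by
  have h := Measure.infinitePi_map_piCongrLeft (X := fun _ : Edge 2 => ℝ)
    (fun _ : Edge 2 => unif) T.symm
  have e : (MeasurableEquiv.piCongrLeft (fun _ : Edge 2 => ℝ) T.symm : (Edge 2 → ℝ) → (Edge 2 → ℝ)) =
      fun u e => u (T e) := by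
    funext u e
    obtain ⟨a, rfl⟩ := T.symm.surjective e
    rw [MeasurableEquiv.coe_piCongrLeft, Equiv.piCongrLeft_apply_apply, Equiv.apply_symm_apply]
  rw [e] at h
  exact h

private theorem unif_flip {t : Set ℝ} (ht : MeasurableSet t) :
    unif ((fun x : ℝ => 1 - x) ⁻¹' t) = unif t := by
  have h1 : MeasurePreserving (fun x : ℝ => 1 - x) (volume.restrict (Icc 0 1))
      (volume.restrict (Icc 0 1)) := by
    have h2 := ((volume : Measure ℝ).measurePreserving_sub_left 1).restrict_preimage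
      (measurableSet_Icc (a := (0 : ℝ)) (b := 1))
    have h3 : (fun x : ℝ => 1 - x) ⁻¹' Icc (0 : ℝ) 1 = Icc 0 1 := by
      rw [Set.preimage_const_sub_Icc]
      norm_num
    rw [h3] at h2
    exact h2
  exact h1.measure_preimage ht.nullMeasurableSet

theorem PE_flip : (PE 2 unif).map (fun u e => 1 - u e) = PE 2 unif := by
  refine Measure.eq_infinitePi _ fun s t ht => ?_
  have hm : Measurable fun (u : Edge 2 → ℝ) (e : Edge 2) => 1 - u e := by fun_prop
  rw [Measure.map_apply hm (.pi s.countable_toSet fun _ _ => ht _)]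
  have e : (fun (u : Edge 2 → ℝ) (e : Edge 2) => 1 - u e) ⁻¹' ((s : Set (Edge 2)).pi t) =
      (s : Set (Edge 2)).pi (fun e => (fun x : ℝ => 1 - x) ⁻¹' (t e)) := by
    ext x
    simp
  have hm1 : Measurable fun x : ℝ => 1 - x := by fun_prop
  rw [e, Measure.infinitePi_pi _ (fun i _ => hm1 (ht i))]
  exact Finset.prod_congr rfl fun i _ => unif_flip (ht i)

theorem measurableSet_arm {σ : (Edge 2 → ℝ) → Set (Edge 2)} (h : ∀ e, MeasurableSet {u | e ∈ σ u})
    (c : Site 2) (m N : ℕ) (i : Fin 2) (s : ℤ) : MeasurableSet {u | arm (σ u) c m N i s} := by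
  have e : {u | arm (σ u) c m N i s} = ⋃ a : Site 2, ⋃ b : Site 2,
      ({_u : Edge 2 → ℝ | a ∈ box c m ∧ b ∈ box c N ∧ b i = c i + s * N} ∩
        {u | Conn (σ u ∩ bE c N) a b}) := by
    ext u
    simp only [mem_ofPred_eq, mem_iUnion, mem_inter_iff]
    constructor
    · rintro ⟨a, ha, b, hb, h1, h2⟩
      exact ⟨a, b, ⟨ha, hb, h1⟩, h2⟩
    · rintro ⟨a, b, ⟨ha, hb, h1⟩, h2⟩
      exact ⟨a, ha, b, hb, h1, h2⟩
  rw [e]
  refine MeasurableSet.iUnion fun a => MeasurableSet.iUnion fun b =>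
    (MeasurableSet.const _).inter (measurableSet_Conn (σ := fun u => σ u ∩ bE c N) (fun e => ?_) a b)
  exact (h e).inter (MeasurableSet.const (e ∈ bE c N))

/-- `T` is induced by `τ` -/
private def Sy (τ : Site 2 → Site 2) (T : Edge 2 → Edge 2) : Prop :=
  ∀ e, (src (T e) = τ (src e) ∧ tgt (T e) = τ (tgt e)) ∨
    (src (T e) = τ (tgt e) ∧ tgt (T e) = τ (src e))

private theorem conn_sy {τ : Site 2 → Site 2} {T : Edge 2 → Edge 2} (h : Sy τ T)
    {σ σ' : Set (Edge 2)} (hσ : ∀ e ∈ σ, T e ∈ σ') {a b : Site 2} (hc : Conn σ a b) :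
    Conn σ' (τ a) (τ b) := by
  unfold Conn at *
  induction hc with
  | refl => exact Relation.ReflTransGen.refl
  | tail _ hab ih =>
    obtain ⟨e, he, h'⟩ := hab
    refine Relation.ReflTransGen.tail ih ⟨T e, hσ e he, ?_⟩
    rcases h' with ⟨rfl, rfl⟩ | ⟨rfl, rfl⟩
    · rcases h e with h1 | h1
      · exact Or.inl h1
      · exact Or.inr h1
    · rcases h e with h1 | h1
      · exact Or.inr h1
      · exact Or.inl h1

private theorem arm_sy {τ : Site 2 → Site 2} {T : Edge 2 → Edge 2} (h : Sy τ T) {c c' : Site 2}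
    (hb : ∀ n v, v ∈ box c n → τ v ∈ box c' n) {m N : ℕ} {i i' : Fin 2} {s s' : ℤ}
    (hi : ∀ v, v i = c i + s * N → τ v i' = c' i' + s' * N) {σ σ' : Set (Edge 2)}
    (hσ : ∀ e ∈ σ, T e ∈ σ') (ha : arm σ c m N i s) : arm σ' c' m N i' s' := by
  obtain ⟨a, h1, b, h2, h3, h4⟩ := ha
  refine ⟨τ a, hb m a h1, τ b, hb N b h2, hi b h3,
    conn_sy (σ := σ ∩ bE c N) (σ' := σ' ∩ bE c' N) h (fun e he => ⟨hσ e he.1, ?_⟩) h4⟩
  have h5 : e ∈ In (box c N) := he.2
  rw [mem_In] at h5
  change T e ∈ In (box c' N)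
  rw [mem_In]
  rcases h e with h6 | h6
  · rw [h6.1, h6.2]
    exact ⟨hb N _ h5.1, hb N _ h5.2⟩
  · rw [h6.1, h6.2]
    exact ⟨hb N _ h5.2, hb N _ h5.1⟩

private theorem op_meas (p : ℝ) (e : Edge 2) : MeasurableSet {u : Edge 2 → ℝ | e ∈ op p u} :=
  measurableSet_lt (measurable_pi_apply e) measurable_const

private theorem prob_sy {τ : Site 2 → Site 2} (T : Edge 2 ≃ Edge 2) (h : Sy τ T) {c c' : Site 2}
    (hb : ∀ n v, v ∈ box c n → τ v ∈ box c' n) {m N : ℕ} {i i' : Fin 2} {s s' : ℤ}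
    (hi : ∀ v, v i = c i + s * N → τ v i' = c' i' + s' * N) (p : ℝ) :
    (PE 2 unif).real {u | ¬ arm (op p u) c' m N i' s'} ≤
      (PE 2 unif).real {u | ¬ arm (op p u) c m N i s} := by
  have hm : Measurable fun (u : Edge 2 → ℝ) (e : Edge 2) => u (T e) :=
    measurable_pi_lambda _ fun e => measurable_pi_apply (T e)
  have hA : MeasurableSet {u : Edge 2 → ℝ | ¬ arm (op p u) c m N i s} :=
    (measurableSet_arm (op_meas p) c m N i s).compl
  have e1 : (PE 2 unif).real {u | ¬ arm (op p u) c m N i s} =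
      (PE 2 unif).real ((fun (u : Edge 2 → ℝ) (e : Edge 2) => u (T e)) ⁻¹'
        {u | ¬ arm (op p u) c m N i s}) := by
    conv_lhs => rw [← PE_perm T]
    rw [measureReal_def, measureReal_def, Measure.map_apply hm hA]
  rw [e1]
  refine measureReal_mono ?_
  intro u hu ha
  refine hu (arm_sy h hb hi (fun e he => ?_) ha)
  exact he

private theorem prob_tr (p : ℝ) (c d : Site 2) (m N : ℕ) (i : Fin 2) (s : ℤ) :
    (PE 2 unif).real {u | ¬ arm (op p u) (c + d) m N i s} ≤
      (PE 2 unif).real {u | ¬ arm (op p u) c m N i s} := by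
  refine prob_sy (τ := fun v => v + d) ((Equiv.addRight d).prodCongr (Equiv.refl _)) ?_ ?_ ?_ p
  · intro e
    left
    refine ⟨rfl, ?_⟩
    change e.1 + d + Pi.single e.2 1 = e.1 + Pi.single e.2 1 + d
    abel
  · intro n v hv
    rw [mem_box] at hv ⊢
    rwa [show v + d - (c + d) = v - c by abel]
  · intro v hv
    rw [Pi.add_apply, Pi.add_apply, hv]
    ring

private theorem prob_sw (p : ℝ) (m N : ℕ) (i : Fin 2) (s : ℤ) :
    (PE 2 unif).real {u | ¬ arm (op p u) 0 m N (i + 1) s} ≤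
      (PE 2 unif).real {u | ¬ arm (op p u) 0 m N i s} := by
  have hj : ∀ j : Fin 2, j + 1 + 1 = j := by decide
  have hT : Function.Involutive fun e : Edge 2 => ((fun j => e.1 (j + 1)), e.2 + 1) := by
    intro e
    refine Prod.ext ?_ (hj e.2)
    funext j
    change e.1 (j + 1 + 1) = e.1 j
    rw [hj]
  refine prob_sy (τ := fun v j => v (j + 1)) hT.toPerm ?_ ?_ ?_ p
  · intro e
    left
    refine ⟨rfl, ?_⟩
    funext j
    change e.1 (j + 1) + (Pi.single (e.2 + 1) 1 : Site 2) j =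
      e.1 (j + 1) + (Pi.single e.2 1 : Site 2) (j + 1)
    congr 1
    have hjk : ∀ j k : Fin 2, (Pi.single (k + 1) 1 : Site 2) j = (Pi.single k 1 : Site 2) (j + 1) := by
      decide
    exact hjk j e.2
  · intro n v hv
    rw [mem_box, sub_zero, sn_le_iff] at hv ⊢
    exact fun j => hv (j + 1)
  · intro v hv
    change v (i + 1 + 1) = _
    rw [hj, hv]
    rfl

private theorem prob_rf (p : ℝ) (m N : ℕ) (i : Fin 2) (s : ℤ) :
    (PE 2 unif).real {u | ¬ arm (op p u) 0 m N i (-s)} ≤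
      (PE 2 unif).real {u | ¬ arm (op p u) 0 m N i s} := by
  have hT : Function.Involutive fun e : Edge 2 => ((-(e.1 + Pi.single e.2 1), e.2) : Edge 2) := by
    intro e
    refine Prod.ext ?_ rfl
    change -(-(e.1 + Pi.single e.2 1) + Pi.single e.2 1) = e.1
    abel
  refine prob_sy (τ := fun v => -v) hT.toPerm ?_ ?_ ?_ p
  · intro e
    right
    refine ⟨rfl, ?_⟩
    change -(e.1 + Pi.single e.2 1) + Pi.single e.2 1 = -e.1
    abel
  · intro n v hv
    rw [mem_box, sub_zero] at hv ⊢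
    rwa [sn_neg]
  · intro v hv
    rw [Pi.neg_apply, hv]
    simp only [Pi.zero_apply]
    ring

theorem prob_arm (p : ℝ) (c : Site 2) (m N : ℕ) (i : Fin 2) {s : ℤ} (hs : s = 1 ∨ s = -1) :
    (PE 2 unif).real {u | ¬ arm (op p u) c m N i s} =
      (PE 2 unif).real {u | ¬ arm (op p u) 0 m N 0 1} := by
  have tr : ∀ (c d : Site 2) (i : Fin 2) (s : ℤ),
      (PE 2 unif).real {u | ¬ arm (op p u) c m N i s} =
        (PE 2 unif).real {u | ¬ arm (op p u) d m N i s} := by
    have h1 : ∀ (c d : Site 2) (i : Fin 2) (s : ℤ),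
        (PE 2 unif).real {u | ¬ arm (op p u) c m N i s} ≤
          (PE 2 unif).real {u | ¬ arm (op p u) d m N i s} := by
      intro c d i s
      have := prob_tr p d (c - d) m N i s
      rwa [add_sub_cancel] at this
    exact fun c d i s => le_antisymm (h1 c d i s) (h1 d c i s)
  have sw : ∀ (i : Fin 2) (s : ℤ),
      (PE 2 unif).real {u | ¬ arm (op p u) 0 m N (i + 1) s} =
        (PE 2 unif).real {u | ¬ arm (op p u) 0 m N i s} := by
    intro i s
    refine le_antisymm (prob_sw p m N i s) ?_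
    have := prob_sw p m N (i + 1) s
    have hj : ∀ j : Fin 2, j + 1 + 1 = j := by decide
    rwa [hj] at this
  have rf : ∀ (i : Fin 2) (s : ℤ),
      (PE 2 unif).real {u | ¬ arm (op p u) 0 m N i (-s)} =
        (PE 2 unif).real {u | ¬ arm (op p u) 0 m N i s} := by
    intro i s
    refine le_antisymm (prob_rf p m N i s) ?_
    have := prob_rf p m N i (-s)
    rwa [neg_neg] at this
  rw [tr c 0]
  have hi : (PE 2 unif).real {u | ¬ arm (op p u) 0 m N i s} =
      (PE 2 unif).real {u | ¬ arm (op p u) 0 m N 0 s} := by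
    have h2 : i = 0 ∨ i = 0 + 1 := by revert i; decide
    rcases h2 with h2 | h2
    · rw [h2]
    · rw [h2, sw 0 s]
  rw [hi]
  rcases hs with rfl | rfl
  · rfl
  · exact rf 0 1

theorem prob_dual (p : ℝ) (c : Site 2) (m N : ℕ) (i : Fin 2) {s : ℤ} (hs : s = 1 ∨ s = -1) :
    (PE 2 unif).real {u | ¬ arm (du (1 - p) u) c m N i s} ≤
      (PE 2 unif).real {u | ¬ arm (op p u) 0 m N 0 1} := by
  have hm1 : Measurable fun (u : Edge 2 → ℝ) (e : Edge 2) => u (dl.symm e) :=
    measurable_pi_lambda _ fun e => measurable_pi_apply _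
  have hm2 : Measurable fun (u : Edge 2 → ℝ) (e : Edge 2) => 1 - u e := by fun_prop
  have hA : MeasurableSet {u : Edge 2 → ℝ | ¬ arm (op p u) c m N i s} :=
    (measurableSet_arm (op_meas p) c m N i s).compl
  rw [← prob_arm p c m N i hs]
  have e1 : (PE 2 unif).real {u | ¬ arm (op p u) c m N i s} =
      (PE 2 unif).real ((fun (u : Edge 2 → ℝ) (e : Edge 2) => u (dl.symm e)) ⁻¹'
        ((fun (u : Edge 2 → ℝ) (e : Edge 2) => 1 - u e) ⁻¹'
          {u | ¬ arm (op p u) c m N i s})) := by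
    conv_lhs => rw [← PE_flip, ← PE_perm dl.symm]
    rw [measureReal_def, measureReal_def, Measure.map_apply hm2 hA, Measure.map_apply hm1 (hm2 hA)]
  rw [e1]
  refine measureReal_mono ?_
  intro u hu ha
  refine hu ?_
  obtain ⟨a, h1, b, h2, h3, h4⟩ := ha
  refine ⟨a, h1, b, h2, h3, h4.mono ?_⟩
  rintro e ⟨he, he'⟩
  refine ⟨?_, he'⟩
  have h5 : 1 - u (dl.symm e) < p := he
  change 1 - p ≤ u (dl.symm e)
  linarith

end Pool.Agent.TVR.G
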