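import Pool.Agent.TVR.G.Defs

/-!
# TVR part G, module Zo: the zero-one law

`A = ⋃ m, {u | ∃ x ∈ box 0 m, the cluster of x is infinite}` = {there is an infinite cluster}.
(1) `A` is measurable: `{y | Conn (op p u) x y}.Infinite` iff for all `k` there is `y` with `k ≤ sn y` and
`Conn (op p u) x y` (boxes are finite); `measurableSet_Conn`.
(2) `A` is invariant under changes of finitely many coordinates: if `u = u'` outside the finite set `S` and
the cluster `C` of `x` in `op p u` is infinite, then every `y ∈ C` is connected in `op p u \ S` to `x` or to an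
end point of an edge of `S` (induction on the path, last step), so one of these finitely many sites has an
infinite cluster in `op p u \ S ⊆ op p u'`.
(3) `P A = 0` or `1`, here `P A > 0`, so `P A = 1`: `RC.indep_set` gives `P (B ∩ A) = P B * P A` for every
`B = {ω | ∀ i ∈ S, ω i ∈ t i}` (a set that depends on the finite set `S`), so the probability measure
`ν B = (P A)⁻¹ * P (B ∩ A)` agrees with `P` on these boxes, hence `ν = P`
(`MeasureTheory.Measure.eq_infinitePi`), and `P Aᶜ = ν Aᶜ = 0`.
(4) continuity from above for the complements (decreasing in `m`).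
-/

open scoped ENNReal NNReal
open MeasureTheory Set

noncomputable section

namespace Pool.Agent.TVR.G

open RC Pool.Agent.Helper3.Anderson Pool.Agent.Helper3.Crit

private theorem infinite_iff (σ : Set (Edge 2)) (x : Site 2) :
    {y | Conn σ x y}.Infinite ↔ ∀ k : ℕ, ∃ y : Site 2, k ≤ sn y ∧ Conn σ x y := by
  constructor
  · intro h k
    by_contra hc
    push Not at hc
    refine h ((box (0 : Site 2) k).finite_toSet.subset ?_)
    intro y hy
    rw [Finset.mem_coe, mem_box, sub_zero]
    by_contra h'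
    exact hc y (by omega) hy
  · intro h hf
    obtain ⟨m, hm⟩ := (hf.image sn).bddAbove
    obtain ⟨y, hy, hc⟩ := h (m + 1)
    have := hm ⟨y, hc, rfl⟩
    omega

/-- invariance of the existence of an infinite cluster -/
private theorem inv_fin (S : Finset (Edge 2)) {σ σ' : Set (Edge 2)}
    (h : ∀ e, e ∉ S → e ∈ σ → e ∈ σ') {x : Site 2} (hinf : {y | Conn σ x y}.Infinite) :
    ∃ x', {y | Conn σ' x' y}.Infinite := by
  classical
  let E : Finset (Site 2) := insert x (S.image src ∪ S.image tgt)
  have key : ∀ y, Conn σ x y → ∃ z ∈ E, Conn σ' z y := by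
    intro y hy
    unfold Conn at hy
    induction hy with
    | refl => exact ⟨x, Finset.mem_insert_self _ _, Relation.ReflTransGen.refl⟩
    | @tail b c _ hbc ih =>
      obtain ⟨z, hz, hzb⟩ := ih
      obtain ⟨e, he, h'⟩ := hbc
      by_cases heS : e ∈ S
      · refine ⟨c, ?_, Relation.ReflTransGen.refl⟩
        refine Finset.mem_insert_of_mem (Finset.mem_union.2 ?_)
        rcases h' with h' | h'
        · exact Or.inr (Finset.mem_image.2 ⟨e, heS, h'.2⟩)
        · exact Or.inl (Finset.mem_image.2 ⟨e, heS, h'.1⟩)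
      · exact ⟨z, hz, Relation.ReflTransGen.tail hzb ⟨e, h e heS he, h'⟩⟩
  by_contra hc
  push Not at hc
  refine hinf ((Set.Finite.biUnion E.finite_toSet (t := fun z => {y | Conn σ' z y})
    (fun z _ => hc z)).subset ?_)
  intro y hy
  obtain ⟨z, hz, hzy⟩ := key y hy
  exact Set.mem_biUnion (Finset.mem_coe.2 hz) hzy

theorem measurableSet_infinite (p : ℝ) (x : Site 2) :
    MeasurableSet {u | {y | Conn (op p u) x y}.Infinite} := by
  have e : {u : Edge 2 → ℝ | {y | Conn (op p u) x y}.Infinite} =
      ⋂ k : ℕ, ⋃ y : Site 2, {u | k ≤ sn y ∧ Conn (op p u) x y} := by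
    ext u
    simp only [Set.mem_ofPred_eq, Set.mem_iInter, Set.mem_iUnion]
    exact infinite_iff _ _
  rw [e]
  refine MeasurableSet.iInter fun k => MeasurableSet.iUnion fun y => ?_
  refine MeasurableSet.inter (s₁ := {u : Edge 2 → ℝ | k ≤ sn y}) (MeasurableSet.const _) ?_
  exact measurableSet_Conn (σ := fun u => op p u)
    (fun e => measurableSet_lt (measurable_pi_apply e) measurable_const) x y

theorem zero_one {p : ℝ} (h : Perco 2 p) {ε : ℝ} (hε : 0 < ε) :
    ∃ m : ℕ, (PE 2 unif).real {u | ¬ ∃ x ∈ box 0 m, {y | Conn (op p u) x y}.Infinite} ≤ ε := by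
  classical
  set P := PE 2 unif with hP
  set I : Site 2 → Set (Edge 2 → ℝ) := fun x => {u | {y | Conn (op p u) x y}.Infinite} with hI
  have hIm : ∀ x, MeasurableSet (I x) := fun x => measurableSet_infinite p x
  set A : Set (Edge 2 → ℝ) := ⋃ x, I x with hA
  have hAm : MeasurableSet A := MeasurableSet.iUnion hIm
  have hpos : P A ≠ 0 := by
    refine (lt_of_lt_of_le h (measure_mono ?_)).ne'
    intro u hu
    exact Set.mem_iUnion.2 ⟨0, hu⟩
  have hinv : ∀ (S : Finset (Edge 2)) (ω ω' : Edge 2 → ℝ), (∀ i, i ∉ S → ω i = ω' i) →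
      ω ∈ A → ω' ∈ A := by
    intro S ω ω' hh hω
    obtain ⟨x, hx⟩ := Set.mem_iUnion.1 hω
    obtain ⟨x', hx'⟩ := inv_fin S (σ := op p ω) (σ' := op p ω') (fun e he heσ => by
      change ω' e < p
      rw [← hh e he]
      exact heσ) hx
    exact Set.mem_iUnion.2 ⟨x', hx'⟩
  have hfin : P A ≠ ⊤ := measure_ne_top _ _
  have hν : ((P A)⁻¹ • P.restrict A) = P := by
    rw [hP]
    refine Measure.eq_infinitePi (fun _ : Edge 2 => unif) fun s t ht => ?_
    rw [Measure.smul_apply, smul_eq_mul,
      Measure.restrict_apply (MeasurableSet.pi s.countable_toSet fun i _ => ht i)]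
    have h1 := indep_set (κ := unif) s (A := Set.pi s t) (B := A)
      (MeasurableSet.pi s.countable_toSet fun i _ => ht i) hAm (fun ω ω' hh hω i hi => by
        rw [← hh i hi]
        exact hω i hi) (hinv s)
    have h2 := Measure.infinitePi_pi (fun _ : Edge 2 => unif) (s := s) (t := t)
      (fun i _ => ht i)
    change (P A)⁻¹ * P (Set.pi s t ∩ A) = _
    have h3 : P (Set.pi s t ∩ A) = P (Set.pi s t) * P A := h1
    rw [h3, mul_comm (P (Set.pi s t)), ← mul_assoc, ENNReal.inv_mul_cancel hpos hfin, one_mul]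
    exact h2
  have hAc : P Aᶜ = 0 := by
    have h1 : ((P A)⁻¹ • P.restrict A) Aᶜ = 0 := by
      rw [Measure.smul_apply, Measure.restrict_apply hAm.compl, Set.compl_inter_self,
        measure_empty, smul_zero]
    rwa [hν] at h1
  set B : ℕ → Set (Edge 2 → ℝ) := fun m => {u | ¬ ∃ x ∈ box 0 m, u ∈ I x} with hB
  have hBm : ∀ m, MeasurableSet (B m) := by
    intro m
    have e : B m = (⋃ x ∈ box (0 : Site 2) m, I x)ᶜ := by
      ext u
      simp [B]
    rw [e]
    exact (MeasurableSet.biUnion (box (0 : Site 2) m).countable_toSet fun x _ => hIm x).compl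
  have hBanti : Antitone B := by
    intro m n hmn u hu hx
    obtain ⟨x, hx, hxu⟩ := hx
    exact hu ⟨x, box_mono 0 hmn hx, hxu⟩
  have hBint : ⋂ m, B m = Aᶜ := by
    ext u
    rw [Set.mem_iInter, Set.mem_compl_iff]
    constructor
    · intro hu hA'
      obtain ⟨x, hx⟩ := Set.mem_iUnion.1 hA'
      exact hu (sn x) ⟨x, by rw [mem_box, sub_zero], hx⟩
    · rintro hu m ⟨x, -, hx⟩
      exact hu (Set.mem_iUnion.2 ⟨x, hx⟩)
  have hlim := tendsto_measure_iInter_atTop (μ := P) (fun m => (hBm m).nullMeasurableSet) hBanti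
    ⟨0, measure_ne_top _ _⟩
  rw [hBint, hAc] at hlim
  obtain ⟨m, hm⟩ := (hlim.eventually (gt_mem_nhds (ENNReal.ofReal_pos.2 hε))).exists
  refine ⟨m, ?_⟩
  have h5 : P (B m) ≤ ENNReal.ofReal ε := le_of_lt hm
  exact ENNReal.toReal_le_of_le_ofReal hε.le h5

end Pool.Agent.TVR.G
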