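import Pool.Agent.TVR.G.Ext
import Pool.Agent.TVR.G.Zo
import Pool.Agent.TVR.G.Fkg
import Pool.Agent.TVR.G.Sym

/-!
# TVR part G, module Sq: the square root trick

`m` from `zero_one` with `ε = 1 / 4096`.  For `N ≥ m` the four events `{¬ arm (op p u) 0 m N i s}` are increasing
(`arm_mono`, `op` decreases), measurable and depend on the finite set `In (box 0 N)`; their intersection is
contained in `{¬ ∃ x ∈ box 0 m, infinite cluster}` (`arm_of_infinite`).  With `fkg4` and `prob_arm`: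
`x ^ 4 ≤ 1 / 4096` for `x = P (¬ arm (op p u) 0 m N 0 1)`, so `x ≤ 1 / 8`.
-/

open scoped ENNReal NNReal
open MeasureTheory Set

noncomputable section

namespace Pool.Agent.TVR.G

open RC Pool.Agent.Helper3.Anderson Pool.Agent.Helper3.Crit

private theorem dep_arm (p : ℝ) (m N : ℕ) (i : Fin 2) (s : ℤ) :
    Dep (In (box 0 N)) {u | ¬ arm (op p u) 0 m N i s} := by
  intro u v h
  have e : op p u ∩ bE 0 N = op p v ∩ bE 0 N := by
    ext e
    constructor
    · rintro ⟨h1, h2⟩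
      refine ⟨?_, h2⟩
      show v e < p
      rw [← h e h2]
      exact h1
    · rintro ⟨h1, h2⟩
      refine ⟨?_, h2⟩
      show u e < p
      rw [h e h2]
      exact h1
  show ¬ arm (op p u) 0 m N i s ↔ ¬ arm (op p v) 0 m N i s
  unfold arm
  rw [e]

private theorem up_arm (p : ℝ) (m N : ℕ) (i : Fin 2) (s : ℤ) :
    Up {u | ¬ arm (op p u) 0 m N i s} := by
  intro u v h hu hv
  exact hu (arm_mono (fun e he => (h e).trans_lt he) hv)

private theorem meas_arm (p : ℝ) (m N : ℕ) (i : Fin 2) (s : ℤ) :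
    MeasurableSet {u | ¬ arm (op p u) 0 m N i s} :=
  (measurableSet_arm (σ := op p) (fun e => measurableSet_lt (measurable_pi_apply e) measurable_const)
    0 m N i s).compl

theorem arm_bound {p : ℝ} (h : Perco 2 p) : ∃ m : ℕ, ∀ N, m ≤ N →
    (PE 2 unif).real {u | ¬ arm (op p u) 0 m N 0 1} ≤ 1 / 8 := by
  obtain ⟨m, hm⟩ := zero_one h (ε := 1 / 4096) (by norm_num)
  refine ⟨m, fun N hN => ?_⟩
  have h4 := fkg4 (meas_arm p m N 0 1) (meas_arm p m N 0 (-1)) (meas_arm p m N 1 1)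
    (meas_arm p m N 1 (-1)) (dep_arm p m N 0 1) (dep_arm p m N 0 (-1)) (dep_arm p m N 1 1)
    (dep_arm p m N 1 (-1)) (up_arm p m N 0 1) (up_arm p m N 0 (-1)) (up_arm p m N 1 1)
    (up_arm p m N 1 (-1))
  rw [prob_arm p 0 m N 0 (Or.inr rfl), prob_arm p 0 m N 1 (Or.inl rfl),
    prob_arm p 0 m N 1 (Or.inr rfl)] at h4
  have hsub : ({u | ¬ arm (op p u) 0 m N 0 1} ∩ {u | ¬ arm (op p u) 0 m N 0 (-1)}) ∩
      ({u | ¬ arm (op p u) 0 m N 1 1} ∩ {u | ¬ arm (op p u) 0 m N 1 (-1)}) ⊆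
      {u | ¬ ∃ x ∈ box 0 m, {y | Conn (op p u) x y}.Infinite} := by
    rintro u ⟨⟨h1, h2⟩, h3, h4⟩ ⟨x, hx, hinf⟩
    rcases arm_of_infinite hN hx hinf with (h | h) | (h | h)
    · exact h1 h
    · exact h2 h
    · exact h3 h
    · exact h4 h
  have h5 := (h4.trans (measureReal_mono hsub)).trans hm
  set x := (PE 2 unif).real {u | ¬ arm (op p u) 0 m N 0 1} with hx
  by_contra hcon
  push Not at hcon
  have h6 : (1 / 8 : ℝ) ^ 4 < x ^ 4 := pow_lt_pow_left₀ hcon (by norm_num) (by norm_num)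
  have h7 : x * x * (x * x) = x ^ 4 := by ring
  rw [h7] at h5
  norm_num at h6 h5
  linarith

end Pool.Agent.TVR.G
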