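import Pool.Agent.TVR.G.Rect
import Pool.Agent.TVR.G.Sq

/-!
# TVR part G, module Pa: the probability of the four arms event

`Ev_meas`: `far'` is a countable union of connection events (`measurableSet_Conn`).
`Ev_dep`: `op p u \ bE c M` and `du (1 - p) u \ dl '' bE c M` depend only on the coordinates outside
`In (box c M)`.
`Ev_prob`: `m` from `arm_bound`.  The complement of `Ev p c (m + 2) N` is contained in the union of the four events
`{¬ arm (op p u) (c + Pi.single 0 (± 1)) m N 0 (± 1)}`, `{¬ arm (du (1 - p) u) (c + Pi.single 1 (± 1)) m N 1 (± 1)}`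
by `arm_far` (`F = bE c (m + 2)`, `V = box c (m + 2)`, and `F = dl '' bE c (m + 2)`, `V = VD c (m + 2)`, `VD_edge`,
`VD_small`), each has probability at most `1 / 8` (`prob_arm`, `prob_dual`).
`Bl_prob`: `RC.prob_all`, `unif (Ico p (1 - p)) = 1 - 2 p`, the block has at most `2 (2 M + 1)²` edges
(`card_box`) and `0 < 1 - 2 p ≤ 1`.
`block_prob`: independence (`RC.indep_set` with `S = In (box c M)`).
-/

open scoped ENNReal NNReal
open MeasureTheory Set

noncomputable section

namespace Pool.Agent.TVR.G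

open RC Pool.Agent.Helper3.Anderson Pool.Agent.Helper3.Crit

/-- the edges of the block are closed at `p` and open at `1 - p` -/
def Bl (p : ℝ) (c : Site 2) (M : ℕ) : Set (Edge 2 → ℝ) :=
  {u | ∀ e ∈ In (box c M), u e ∈ Ico p (1 - p)}

private theorem far_meas {σ : (Edge 2 → ℝ) → Set (Edge 2)} (h : ∀ e, MeasurableSet {u | e ∈ σ u})
    (V : Set (Site 2)) (c : Site 2) (N : ℕ) (i : Fin 2) (s : ℤ) :
    MeasurableSet {u | far' (σ u) V c N i s} := by
  have h1 : {u | far' (σ u) V c N i s} = ⋃ (a : Site 2), ⋃ (b : Site 2),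
      ({_u : Edge 2 → ℝ | a ∈ V ∧ b i = c i + s * (N + 1)} ∩
        {u | Conn (σ u ∩ inE (strip (i + 1) c N)) a b}) := by
    ext u
    simp only [far', Set.mem_iUnion, Set.mem_inter_iff, Set.mem_setOf_eq]
    constructor
    · rintro ⟨a, ha, b, hb, hc⟩
      exact ⟨a, b, ⟨ha, hb⟩, hc⟩
    · rintro ⟨a, b, ⟨ha, hb⟩, hc⟩
      exact ⟨a, ha, b, hb, hc⟩
  rw [h1]
  refine MeasurableSet.iUnion fun a => MeasurableSet.iUnion fun b => ?_
  refine (MeasurableSet.const _).inter (measurableSet_Conn (fun e => ?_) a b)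
  exact (h e).inter (MeasurableSet.const (e ∈ inE (strip (i + 1) c N)))

private theorem op_meas (p : ℝ) (F : Set (Edge 2)) (e : Edge 2) :
    MeasurableSet {u : Edge 2 → ℝ | e ∈ op p u \ F} := by
  have h1 : MeasurableSet {u : Edge 2 → ℝ | u e < p} :=
    measurableSet_lt (measurable_pi_apply e) measurable_const
  exact h1.inter (MeasurableSet.const (e ∉ F))

private theorem du_meas (q : ℝ) (F : Set (Edge 2)) (e : Edge 2) :
    MeasurableSet {u : Edge 2 → ℝ | e ∈ du q u \ F} := by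
  have h1 : MeasurableSet {u : Edge 2 → ℝ | q ≤ u (dl.symm e)} :=
    measurableSet_le measurable_const (measurable_pi_apply _)
  exact h1.inter (MeasurableSet.const (e ∉ F))

theorem Ev_meas (p : ℝ) (c : Site 2) (M N : ℕ) : MeasurableSet (Ev p c M N) :=
  ((far_meas (op_meas p _) _ c N 0 1).inter (far_meas (op_meas p _) _ c N 0 (-1))).inter
    ((far_meas (du_meas (1 - p) _) _ c N 1 1).inter (far_meas (du_meas (1 - p) _) _ c N 1 (-1)))

theorem Bl_meas (p : ℝ) (c : Site 2) (M : ℕ) : MeasurableSet (Bl p c M) := by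
  have h1 : Bl p c M = ⋂ e ∈ In (box c M), (fun u : Edge 2 → ℝ => u e) ⁻¹' Ico p (1 - p) := by
    ext u
    simp only [Bl, Set.mem_iInter, Set.mem_preimage]
    rfl
  rw [h1]
  exact Finset.measurableSet_biInter _ fun e _ => measurable_pi_apply e measurableSet_Ico

theorem Ev_dep {p : ℝ} {c : Site 2} {M N : ℕ} {u v : Edge 2 → ℝ}
    (h : ∀ e, e ∉ In (box c M) → u e = v e) (hu : u ∈ Ev p c M N) : v ∈ Ev p c M N := by
  have h1 : op p u \ bE c M = op p v \ bE c M := by
    ext e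
    constructor
    · rintro ⟨h2, h3⟩
      have h4 : u e = v e := h e (fun h5 => h3 h5)
      have h2' : u e < p := h2
      exact ⟨show v e < p by rw [← h4]; exact h2', h3⟩
    · rintro ⟨h2, h3⟩
      have h4 : u e = v e := h e (fun h5 => h3 h5)
      have h2' : v e < p := h2
      exact ⟨show u e < p by rw [h4]; exact h2', h3⟩
  have hd : ∀ e, e ∉ dl '' bE c M → u (dl.symm e) = v (dl.symm e) := by
    intro e he
    refine h _ fun h5 => he ⟨dl.symm e, h5, dl.apply_symm_apply e⟩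
  have h2 : du (1 - p) u \ dl '' bE c M = du (1 - p) v \ dl '' bE c M := by
    ext e
    constructor
    · rintro ⟨h2, h3⟩
      have h2' : 1 - p ≤ u (dl.symm e) := h2
      exact ⟨show 1 - p ≤ v (dl.symm e) by rw [← hd e h3]; exact h2', h3⟩
    · rintro ⟨h2, h3⟩
      have h2' : 1 - p ≤ v (dl.symm e) := h2
      exact ⟨show 1 - p ≤ u (dl.symm e) by rw [hd e h3]; exact h2', h3⟩
  have h3 : (far' (op p u \ bE c M) (box c M : Finset (Site 2)) c N 0 1 ∧
      far' (op p u \ bE c M) (box c M : Finset (Site 2)) c N 0 (-1)) ∧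
    far' (du (1 - p) u \ dl '' bE c M) (VD c M) c N 1 1 ∧
      far' (du (1 - p) u \ dl '' bE c M) (VD c M) c N 1 (-1) := hu
  rw [h1, h2] at h3
  exact h3

theorem Ev_prob {p : ℝ} (h : Perco 2 p) : ∃ m : ℕ, ∀ (c : Site 2) (N : ℕ), m ≤ N →
    1 / 2 ≤ (PE 2 unif).real (Ev p c (m + 2) N) := by
  obtain ⟨m, hm⟩ := arm_bound h
  refine ⟨m, fun c N hN => ?_⟩
  have hsub : (Ev p c (m + 2) N)ᶜ ⊆
      ({u | ¬ arm (op p u) (c + Pi.single 0 1) m N 0 1} ∪
        {u | ¬ arm (op p u) (c + Pi.single 0 (-1)) m N 0 (-1)}) ∪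
      ({u | ¬ arm (du (1 - p) u) (c + Pi.single 1 1) m N 1 1} ∪
        {u | ¬ arm (du (1 - p) u) (c + Pi.single 1 (-1)) m N 1 (-1)}) := by
    intro u hu
    by_contra hcon
    simp only [Set.mem_union, Set.mem_setOf_eq, not_or, not_not] at hcon
    obtain ⟨⟨h1, h2⟩, h3, h4⟩ := hcon
    apply hu
    have hF : ∀ e ∈ bE c (m + 2), src e ∈ ((box c (m + 2) : Finset (Site 2)) : Set (Site 2)) ∧
        tgt e ∈ ((box c (m + 2) : Finset (Site 2)) : Set (Site 2)) := by
      intro e he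
      exact mem_In.1 he
    have hV : ∀ v ∈ box c (m + 1), v ∈ ((box c (m + 2) : Finset (Site 2)) : Set (Site 2)) := by
      intro v hv
      rw [mem_box] at hv
      have : v ∈ box c (m + 2) := mem_box.2 (by omega)
      exact this
    exact ⟨⟨arm_far (Or.inl rfl) hF hV h1, arm_far (Or.inr rfl) hF hV h2⟩,
      arm_far (Or.inl rfl) (fun e he => VD_edge he) (fun v hv => VD_small hv) h3,
      arm_far (Or.inr rfl) (fun e he => VD_edge he) (fun v hv => VD_small hv) h4⟩
  have h0 := hm N hN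
  have b1 := prob_arm p (c + Pi.single 0 1) m N 0 (s := 1) (Or.inl rfl)
  have b2 := prob_arm p (c + Pi.single 0 (-1)) m N 0 (s := -1) (Or.inr rfl)
  have b3 := prob_dual p (c + Pi.single 1 1) m N 1 (s := 1) (Or.inl rfl)
  have b4 := prob_dual p (c + Pi.single 1 (-1)) m N 1 (s := -1) (Or.inr rfl)
  have h1 : (PE 2 unif).real (Ev p c (m + 2) N)ᶜ ≤ 1 / 2 := by
    refine (measureReal_mono hsub).trans ?_
    refine (measureReal_union_le _ _).trans ?_
    have u1 := measureReal_union_le (μ := PE 2 unif)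
      {u | ¬ arm (op p u) (c + Pi.single 0 1) m N 0 1}
      {u | ¬ arm (op p u) (c + Pi.single 0 (-1)) m N 0 (-1)}
    have u2 := measureReal_union_le (μ := PE 2 unif)
      {u | ¬ arm (du (1 - p) u) (c + Pi.single 1 1) m N 1 1}
      {u | ¬ arm (du (1 - p) u) (c + Pi.single 1 (-1)) m N 1 (-1)}
    linarith
  have h2 := measureReal_add_measureReal_compl (μ := PE 2 unif) (Ev_meas p c (m + 2) N)
  rw [probReal_univ] at h2
  linarith

theorem Bl_prob {p : ℝ} (h0 : 0 ≤ p) (h1 : p < 1 / 2) (c : Site 2) (M : ℕ) :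
    (1 - 2 * p) ^ (2 * (2 * M + 1) ^ 2) ≤ (PE 2 unif).real (Bl p c M) := by
  have h2 : unif (Ico p (1 - p)) = ENNReal.ofReal (1 - 2 * p) := by
    unfold unif
    rw [Measure.restrict_apply measurableSet_Ico, Set.inter_eq_left.2, Real.volume_Ico]
    · congr 1; ring
    · intro x hx
      exact ⟨h0.trans hx.1, by linarith [hx.2]⟩
  have h3 : (PE 2 unif) (Bl p c M) = (ENNReal.ofReal (1 - 2 * p)) ^ (In (box c M)).card := by
    rw [← h2]
    exact prob_all (κ := unif) (In (box c M)) measurableSet_Ico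
  have h4 : (PE 2 unif).real (Bl p c M) = (1 - 2 * p) ^ (In (box c M)).card := by
    rw [Measure.real, h3, ENNReal.toReal_pow, ENNReal.toReal_ofReal (by linarith)]
  rw [h4]
  apply pow_le_pow_of_le_one (by linarith) (by linarith)
  have h5 : In (box c M) ⊆ box c M ×ˢ (Finset.univ : Finset (Fin 2)) := by
    intro e he
    rw [Finset.mem_product]
    exact ⟨(mem_In.1 he).1, Finset.mem_univ _⟩
  refine (Finset.card_le_card h5).trans ?_
  rw [Finset.card_product, card_box, Finset.card_univ, Fintype.card_fin, mul_comm]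

theorem block_prob {p : ℝ} (h0 : 0 ≤ p) (h1 : p < 1 / 2) (h : Perco 2 p) :
    ∃ m : ℕ, ∀ (c : Site 2) (N : ℕ), m ≤ N →
      (1 - 2 * p) ^ (2 * (2 * (m + 2) + 1) ^ 2) / 2 ≤
        (PE 2 unif).real (Bl p c (m + 2) ∩ Ev p c (m + 2) N) := by
  obtain ⟨m, hm⟩ := Ev_prob h
  refine ⟨m, fun c N hN => ?_⟩
  have h2 := hm c N hN
  have h3 := Bl_prob h0 h1 c (m + 2)
  have h4 : (PE 2 unif) (Bl p c (m + 2) ∩ Ev p c (m + 2) N) =
      (PE 2 unif) (Bl p c (m + 2)) * (PE 2 unif) (Ev p c (m + 2) N) := by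
    refine indep_set (κ := unif) (In (box c (m + 2))) (Bl_meas _ _ _) (Ev_meas _ _ _ _)
      (fun ω ω' hω hA => ?_) (fun ω ω' hω hB => Ev_dep hω hB)
    intro e he
    rw [← hω e he]
    exact hA e he
  have h5 : (PE 2 unif).real (Bl p c (m + 2) ∩ Ev p c (m + 2) N) =
      (PE 2 unif).real (Bl p c (m + 2)) * (PE 2 unif).real (Ev p c (m + 2) N) := by
    rw [Measure.real, h4, ENNReal.toReal_mul]
    rfl
  rw [h5]
  have h6 : (0 : ℝ) ≤ (1 - 2 * p) ^ (2 * (2 * (m + 2) + 1) ^ 2) :=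
    pow_nonneg (by linarith) _
  calc (1 - 2 * p) ^ (2 * (2 * (m + 2) + 1) ^ 2) / 2 =
        (1 - 2 * p) ^ (2 * (2 * (m + 2) + 1) ^ 2) * (1 / 2) := by ring
    _ ≤ (PE 2 unif).real (Bl p c (m + 2)) * (PE 2 unif).real (Ev p c (m + 2) N) :=
        mul_le_mul h3 h2 (by norm_num) (h6.trans h3)

end Pool.Agent.TVR.G
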