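import Pool.Agent.TVR.G.Defs

/-!
# TVR part G, module Pla: the planar lemma (mod 2)

Dual vertices in shifted coordinates: `v` is the point `v + (1/2, 1/2)`.
Claim (induction on the dual path, `Relation.ReflTransGen` with the last step): for every
`Conn (τ ∩ inE (strip 0 c N)) s t` there is `ν : Site 2 → ZMod 2` with
 (i) for all `v` with `dl (v, 0) ∉ τ`: `ν (v + e_0) = ν v`;
 (ii) for all `v` with `dl (v, 1) ∉ τ`: `ν (v + e_1) = ν v + χ v s + χ v t`, where
   `χ v w = if w 1 = v 1 ∧ w 0 < v 0 then 1 else 0`;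
 (iii) `ν v = 0` if `v 0 < c 0 - N`;
 (iv) if `c 0 + N < v 0`: `ν v = κ v s + κ v t`, `κ v w = if v 1 ≤ w 1 then 1 else 0` (all in
   `ZMod 2`).
Start: `ν = 0` (`x + x = 0` in `ZMod 2`).  Step from `t` to `t'` along the edge `(w, j) ∈ τ`
(`{t, t'} = {w, w + e_j}`): for `j = 0` keep `ν`; for `j = 1` add
`v ↦ if v 1 = w 1 + 1 ∧ w 0 < v 0 then 1 else 0`.  Check:
 (i) the added function at `v` and `v + e_0` differs only if `v 1 = w 1 + 1`, `w 0 = v 0`, that is
  `w = v - e_1`, `dl (v, 0) = (w, 1) ∈ τ`.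
 (ii) `j = 1`: the added function at `v` is `χ v (w + e_1)` and at `v + e_1` it is `χ v w`.
  `j = 0`: `χ v w + χ v (w + e_0) = 1` only if `w 1 = v 1`, `w 0 = v 0 - 1`: `dl (v, 1) = (w, 0) ∈ τ`.
 (iii) `w 0 ≥ c 0 - N`.  (iv) `w 0 ≤ c 0 + N < v 0`: the added function is 1 iff `v 1 = w 1 + 1`, and
  `κ v w + κ v (w + e_1) = 1` iff `v 1 = w 1 + 1`; for `j = 0`: `κ v w = κ v (w + e_0)`.
Then along the primal path `ν` is constant: a step `(v, 0)` by (i), a step `(v, 1)` by (ii), as both
`v 1`, `v 1 + 1` are in `[c 1 - N, c 1 + N]` and `s 1`, `t 1` are not.  `ν a = 0` by (iii) and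
`ν b = κ b s + κ b t = 0 + 1` by (iv), a contradiction.
-/

open scoped ENNReal NNReal
open MeasureTheory Set

noncomputable section

namespace Pool.Agent.TVR.G

open RC Pool.Agent.Helper3.Anderson Pool.Agent.Helper3.Crit

/-- jump of the counting function on a vertical step -/
def chi (v w : Site 2) : ZMod 2 := if w 1 = v 1 ∧ w 0 < v 0 then 1 else 0

/-- value of the counting function far to the right -/
def kap (v w : Site 2) : ZMod 2 := if v 1 ≤ w 1 then 1 else 0

/-- added function of a vertical dual edge -/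
def gad (w v : Site 2) : ZMod 2 := if v 1 = w 1 + 1 ∧ w 0 < v 0 then 1 else 0

theorem e0_0 (v : Site 2) : (v + Pi.single 0 1 : Site 2) 0 = v 0 + 1 := by simp
theorem e0_1 (v : Site 2) : (v + Pi.single 0 1 : Site 2) 1 = v 1 := by simp
theorem e1_0 (v : Site 2) : (v + Pi.single 1 1 : Site 2) 0 = v 0 := by simp
theorem e1_1 (v : Site 2) : (v + Pi.single 1 1 : Site 2) 1 = v 1 + 1 := by simp

/-- the counting function of a dual path -/
structure Cnt (τ : Set (Edge 2)) (c : Site 2) (N : ℕ) (s t : Site 2) (ν : Site 2 → ZMod 2) :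
    Prop where
  hor : ∀ v : Site 2, dl (v, 0) ∉ τ → ν (v + Pi.single 0 1) = ν v
  ver : ∀ v : Site 2, dl (v, 1) ∉ τ → ν (v + Pi.single 1 1) = ν v + chi v s + chi v t
  left : ∀ v : Site 2, v 0 < c 0 - N → ν v = 0
  right : ∀ v : Site 2, c 0 + N < v 0 → ν v = kap v s + kap v t

theorem dl_hor {τ : Set (Edge 2)} {v w : Site 2} (hw : (w, (1 : Fin 2)) ∈ τ) (h1 : v 1 = w 1 + 1)
    (h0 : w 0 = v 0) : dl (v, 0) ∈ τ := by
  have : dl (v, 0) = (w, (1 : Fin 2)) := by
    simp only [dl, Equiv.coe_fn_mk, zero_add, Prod.mk.injEq, and_true]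
    ext i
    fin_cases i
    · simp [h0]
    · simp [h1]
  rw [this]
  exact hw

theorem dl_ver {τ : Set (Edge 2)} {v w : Site 2} (hw : (w, (0 : Fin 2)) ∈ τ) (h1 : w 1 = v 1)
    (h0 : v 0 = w 0 + 1) : dl (v, 1) ∈ τ := by
  have h11 : (1 : Fin 2) + 1 = 0 := rfl
  have : dl (v, 1) = (w, (0 : Fin 2)) := by
    simp only [dl, Equiv.coe_fn_mk, h11, Prod.mk.injEq, and_true]
    ext i
    fin_cases i
    · simp [h0]
    · simp [h1]
  rw [this]
  exact hw

theorem z2 (x : ZMod 2) : x + x = 0 := CharTwo.add_self_eq_zero x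

/-- a horizontal dual edge does not change `chi` at the vertical steps which it does not cross -/
theorem chi_hor {τ : Set (Edge 2)} {v w : Site 2} (hw : (w, (0 : Fin 2)) ∈ τ)
    (hv : dl (v, 1) ∉ τ) : chi v (w + Pi.single 0 1) = chi v w := by
  unfold chi
  rw [e0_0, e0_1]
  have : ¬(w 1 = v 1 ∧ v 0 = w 0 + 1) := fun h => hv (dl_ver hw h.1 h.2)
  congr 1
  apply propext
  constructor
  · rintro ⟨h1, h2⟩
    exact ⟨h1, by omega⟩
  · rintro ⟨h1, h2⟩
    refine ⟨h1, ?_⟩
    by_contra h3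
    exact this ⟨h1, by omega⟩

theorem kap_hor (v w : Site 2) : kap v (w + Pi.single 0 1) = kap v w := by
  unfold kap
  rw [e0_1]

theorem gad_hor {τ : Set (Edge 2)} {v w : Site 2} (hw : (w, (1 : Fin 2)) ∈ τ)
    (hv : dl (v, 0) ∉ τ) : gad w (v + Pi.single 0 1) = gad w v := by
  unfold gad
  rw [e0_0, e0_1]
  have : ¬(v 1 = w 1 + 1 ∧ w 0 = v 0) := fun h => hv (dl_hor hw h.1 h.2)
  congr 1
  apply propext
  constructor
  · rintro ⟨h1, h2⟩
    refine ⟨h1, ?_⟩
    by_contra h3
    exact this ⟨h1, by omega⟩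
  · rintro ⟨h1, h2⟩
    exact ⟨h1, by omega⟩

theorem gad_chi (v w : Site 2) : gad w v = chi v (w + Pi.single 1 1) := by
  unfold gad chi
  rw [e1_0, e1_1]
  congr 1
  apply propext
  constructor <;> rintro ⟨h1, h2⟩ <;> exact ⟨h1.symm, h2⟩

theorem gad_ver (v w : Site 2) : gad w (v + Pi.single 1 1) = chi v w := by
  unfold gad chi
  rw [e1_0, e1_1]
  congr 1
  apply propext
  constructor <;> rintro ⟨h1, h2⟩ <;> exact ⟨by omega, h2⟩

theorem gad_left {c : Site 2} {N : ℕ} {v w : Site 2} (hw : w ∈ strip 0 c N)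
    (hv : v 0 < c 0 - N) : gad w v = 0 := by
  have hw' : (w 0 - c 0).natAbs ≤ N := hw
  unfold gad
  rw [if_neg]
  rintro ⟨-, h⟩
  omega

theorem gad_right {c : Site 2} {N : ℕ} {v w : Site 2} (hw : w ∈ strip 0 c N)
    (hv : c 0 + N < v 0) : gad w v = kap v w + kap v (w + Pi.single 1 1) := by
  have hw' : (w 0 - c 0).natAbs ≤ N := hw
  unfold gad kap
  rw [e1_1]
  rcases lt_trichotomy (v 1) (w 1 + 1) with h | h | h
  · rw [if_neg (by omega), if_pos (by omega), if_pos (by omega)]
    decide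
  · rw [if_pos ⟨h, by omega⟩, if_neg (by omega), if_pos (by omega)]
    decide
  · rw [if_neg (by omega), if_neg (by omega), if_neg (by omega)]
    decide

theorem cnt_exists {τ : Set (Edge 2)} {c : Site 2} {N : ℕ} {s t : Site 2}
    (hτ : Conn (τ ∩ inE (strip 0 c N)) s t) : ∃ ν, Cnt τ c N s t ν := by
  induction hτ with
  | refl =>
    refine ⟨fun _ => 0, fun v _ => rfl, fun v _ => ?_, fun v _ => rfl, fun v _ => ?_⟩
    · rw [zero_add, z2]
    · rw [z2]
  | @tail t t' _ hst ih =>
    obtain ⟨ν, hν⟩ := ih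
    obtain ⟨⟨w, j⟩, ⟨he, hin⟩, hends⟩ := hst
    have hws : w ∈ strip 0 c N := hin.1
    have key : ∀ u u' : Site 2, u' = w + Pi.single j 1 → (t = w ∧ t' = u') ∨ (t' = w ∧ t = u') →
        ∃ ν, Cnt τ c N s t' ν := by
      intro _ u' hu' hc
      fin_cases j
      · change u' = w + Pi.single 0 1 at hu'
        change (w, (0 : Fin 2)) ∈ τ at he
        refine ⟨ν, hν.hor, fun v hv => ?_, hν.left, fun v hv => ?_⟩
        · rw [hν.ver v hv]
          have := chi_hor he hv
          rcases hc with ⟨h1, h2⟩ | ⟨h1, h2⟩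
          · rw [h1, h2, hu', this]
          · rw [h1, h2, hu', this]
        · rw [hν.right v hv]
          rcases hc with ⟨h1, h2⟩ | ⟨h1, h2⟩
          · rw [h1, h2, hu', kap_hor]
          · rw [h1, h2, hu', kap_hor]
      · change u' = w + Pi.single 1 1 at hu'
        change (w, (1 : Fin 2)) ∈ τ at he
        refine ⟨fun v => ν v + gad w v, fun v hv => ?_, fun v hv => ?_, fun v hv => ?_,
          fun v hv => ?_⟩
        · rw [hν.hor v hv, gad_hor he hv]
        · rw [hν.ver v hv, gad_ver, gad_chi]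
          rcases hc with ⟨h1, h2⟩ | ⟨h1, h2⟩
          · rw [h1, h2, hu']
            have e1 := z2 (chi v w)
            have e2 := z2 (chi v (w + Pi.single 1 1))
            linear_combination e1 - e2
          · rw [h1, h2, hu']
            ring
        · rw [hν.left v hv, gad_left hws hv, add_zero]
        · rw [hν.right v hv, gad_right hws hv]
          rcases hc with ⟨h1, h2⟩ | ⟨h1, h2⟩
          · rw [h1, h2, hu']
            linear_combination z2 (kap v w)
          · rw [h1, h2, hu']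
            linear_combination z2 (kap v (w + Pi.single 1 1))
    rcases hends with ⟨h1, h2⟩ | ⟨h1, h2⟩
    · exact key w t' h2.symm (Or.inl ⟨h1.symm, rfl⟩)
    · exact key w t h2.symm (Or.inr ⟨h1.symm, rfl⟩)

theorem planar {σ τ : Set (Edge 2)} (h : ∀ e ∈ σ, dl e ∉ τ) {c : Site 2} {N : ℕ}
    {a b s t : Site 2} (hσ : Conn (σ ∩ inE (strip 1 c N)) a b) (ha : a 0 = c 0 - (N + 1))
    (hb : b 0 = c 0 + (N + 1)) (hτ : Conn (τ ∩ inE (strip 0 c N)) s t)
    (hs : s 1 = c 1 - (N + 1)) (ht : t 1 = c 1 + (N + 1)) : False := by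
  obtain ⟨ν, hν⟩ := cnt_exists hτ
  have hpath : ∀ b, Conn (σ ∩ inE (strip 1 c N)) a b →
      ν b = ν a ∧ (b = a ∨ b ∈ strip 1 c N) := by
    intro b hab
    induction hab with
    | refl => exact ⟨rfl, Or.inl rfl⟩
    | @tail b b' _ hbb ih =>
      obtain ⟨⟨v, j⟩, ⟨he, hin⟩, hends⟩ := hbb
      have h1 : v ∈ strip 1 c N := hin.1
      have h2 : v + Pi.single j 1 ∈ strip 1 c N := hin.2
      have hd := h _ he
      have hν' : ν (v + Pi.single j 1) = ν v := by
        fin_cases j
        · exact hν.hor v hd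
        · have h3 := hν.ver v hd
          have h1' : (v 1 - c 1).natAbs ≤ N := h1
          have h2' : ((v + Pi.single 1 1 : Site 2) 1 - c 1).natAbs ≤ N := h2
          rw [e1_1] at h2'
          have e1 : chi v s = 0 := by
            unfold chi
            rw [if_neg]
            rintro ⟨h4, -⟩
            omega
          have e2 : chi v t = 0 := by
            unfold chi
            rw [if_neg]
            rintro ⟨h4, -⟩
            omega
          rw [e1, e2, add_zero, add_zero] at h3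
          exact h3
      rcases hends with ⟨h3, h4⟩ | ⟨h3, h4⟩
      · change v = b at h3
        change v + Pi.single j 1 = b' at h4
        rw [h4, h3] at hν'
        exact ⟨hν'.trans ih.1, Or.inr (h4 ▸ h2)⟩
      · change v = b' at h3
        change v + Pi.single j 1 = b at h4
        rw [h4, h3] at hν'
        exact ⟨hν'.symm.trans ih.1, Or.inr (h3 ▸ h1)⟩
  obtain ⟨hab, hbs⟩ := hpath b hσ
  have hba : b ≠ a := by
    intro h
    rw [h] at hb
    omega
  have hb' : (b 1 - c 1).natAbs ≤ N := hbs.resolve_left hba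
  have h0 : ν a = 0 := hν.left a (by omega)
  have h1 : ν b = kap b s + kap b t := hν.right b (by omega)
  have h2 : kap b s = 0 := by
    unfold kap
    rw [if_neg (by omega)]
  have h3 : kap b t = 1 := by
    unfold kap
    rw [if_pos (by omega)]
  rw [hab, h0, h2, h3, zero_add] at h1
  exact absurd h1 (by decide)

end Pool.Agent.TVR.G
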